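import Mathlib

set_option autoImplicit false

/-!
# Almost independent uniformly distributed variables with values in a finite set: moments
-/

namespace Pool.Agent.Q236.LP

open Finset

variable {Ω A : Type*} [Fintype A] [DecidableEq A]

/-- at any `≤ m` points of `S` the variables `σ · k` are almost independent and uniformly distributed -/
def Ind (W : Finset Ω) (σ : Ω → ℕ → A) (S : Finset ℕ) (m : ℕ) (δ : ℝ) : Prop :=
  ∀ J ⊆ S, J.card ≤ m → ∀ e : ℕ → A,
    |((W.filter (fun ω => ∀ k ∈ J, σ ω k = e k)).card : ℝ) - W.card / (Fintype.card A : ℝ) ^ J.card| ≤ δ * W.card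

lemma Ind.mono {W : Finset Ω} {σ : Ω → ℕ → A} {S T : Finset ℕ} {m l : ℕ} {δ : ℝ} (h : Ind W σ S m δ) (hT : T ⊆ S)
    (hl : l ≤ m) : Ind W σ T l δ := fun J hJ hJc e => h J (hJ.trans hT) (hJc.trans hl) e

/-- functions of the variables at the points of `J` -/
lemma fun_sum (W : Finset Ω) (σ : Ω → ℕ → A) (J : Finset ℕ) (H : (ℕ → A) → ℝ)
    (hH : ∀ u v : ℕ → A, (∀ k ∈ J, u k = v k) → H u = H v) (a0 : A) :
    ∑ ω ∈ W, H (σ ω) = ∑ p : J → A, H (fun k => if h : k ∈ J then p ⟨k, h⟩ else a0) *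
      ((W.filter (fun ω => ∀ k ∈ J, σ ω k = if h : k ∈ J then p ⟨k, h⟩ else a0)).card : ℝ) := by
  rw [← Finset.sum_fiberwise W (fun ω => fun k : J => σ ω k) (fun ω => H (σ ω))]
  apply Finset.sum_congr rfl
  intro p _
  have e : W.filter (fun ω => (fun k : J => σ ω k) = p) =
      W.filter (fun ω => ∀ k ∈ J, σ ω k = if h : k ∈ J then p ⟨k, h⟩ else a0) := by
    apply filter_congr
    intro ω _
    constructor
    · intro h k hk
      rw [dif_pos hk, ← h]
    · intro h
      ext k
      have := h k k.2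
      rw [dif_pos k.2] at this
      exact this
  rw [e]
  rw [Finset.sum_congr rfl (g := fun _ => H (fun k => if h : k ∈ J then p ⟨k, h⟩ else a0))]
  · rw [Finset.sum_const, nsmul_eq_mul, mul_comm]
  · intro ω hω
    rw [mem_filter] at hω
    exact hH _ _ hω.2

/-- comparison of two families: functions of few variables -/
lemma fun_cmp {Ω' : Type*} (W : Finset Ω) (σ : Ω → ℕ → A) (W' : Finset Ω') (σ' : Ω' → ℕ → A) (S : Finset ℕ) (m : ℕ)
    (δ δ' : ℝ) (hW : W.Nonempty) (hW' : W'.Nonempty) (h : Ind W σ S m δ) (h' : Ind W' σ' S m δ') (J : Finset ℕ)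
    (hJS : J ⊆ S) (hJm : J.card ≤ m) (H : (ℕ → A) → ℝ) (hH : ∀ u v : ℕ → A, (∀ k ∈ J, u k = v k) → H u = H v)
    (hH1 : ∀ u, |H u| ≤ 1) (a0 : A) :
    |(∑ ω ∈ W, H (σ ω)) / W.card - (∑ ω ∈ W', H (σ' ω)) / W'.card| ≤ (Fintype.card A : ℝ) ^ J.card * (δ + δ') := by
  have hWc : (0 : ℝ) < W.card := by exact_mod_cast hW.card_pos
  have hWc' : (0 : ℝ) < W'.card := by exact_mod_cast hW'.card_pos
  rw [fun_sum W σ J H hH a0, fun_sum W' σ' J H hH a0, Finset.sum_div, Finset.sum_div, ← Finset.sum_sub_distrib]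
  refine (Finset.abs_sum_le_sum_abs _ _).trans ?_
  calc ∑ p : J → A, |H (fun k => if h : k ∈ J then p ⟨k, h⟩ else a0) *
        ((W.filter (fun ω => ∀ k ∈ J, σ ω k = if h : k ∈ J then p ⟨k, h⟩ else a0)).card : ℝ) / W.card -
        H (fun k => if h : k ∈ J then p ⟨k, h⟩ else a0) *
        ((W'.filter (fun ω => ∀ k ∈ J, σ' ω k = if h : k ∈ J then p ⟨k, h⟩ else a0)).card : ℝ) / W'.card| ≤
      ∑ _p : J → A, (δ + δ') := by
        apply Finset.sum_le_sum
        intro p _
        have h1 := h J hJS hJm (fun k => if h : k ∈ J then p ⟨k, h⟩ else a0)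
        have h2 := h' J hJS hJm (fun k => if h : k ∈ J then p ⟨k, h⟩ else a0)
        have h3 := hH1 (fun k => if h : k ∈ J then p ⟨k, h⟩ else a0)
        obtain ⟨x, hx⟩ : ∃ x : ℝ, x = H (fun k => if h : k ∈ J then p ⟨k, h⟩ else a0) := ⟨_, rfl⟩
        obtain ⟨y, hy⟩ : ∃ y : ℝ, y = ((W.filter (fun ω => ∀ k ∈ J, σ ω k = if h : k ∈ J then p ⟨k, h⟩ else a0)).card : ℝ) := ⟨_, rfl⟩
        obtain ⟨z, hz⟩ : ∃ z : ℝ, z = ((W'.filter (fun ω => ∀ k ∈ J, σ' ω k = if h : k ∈ J then p ⟨k, h⟩ else a0)).card : ℝ) := ⟨_, rfl⟩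
        obtain ⟨r, hr⟩ : ∃ r : ℝ, r = (Fintype.card A : ℝ) ^ J.card := ⟨_, rfl⟩
        rw [← hy, ← hr] at h1
        rw [← hz, ← hr] at h2
        rw [← hx] at h3 ⊢
        rw [← hy, ← hz]
        have e : x * y / W.card - x * z / W'.card = x * (((y - W.card / r) / W.card) - ((z - W'.card / r) / W'.card)) := by
          field_simp
          ring
        rw [e, abs_mul]
        have h4 : |(y - W.card / r) / W.card| ≤ δ := by
          rw [abs_div, abs_of_pos hWc, div_le_iff₀ hWc]
          exact h1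
        have h5 : |(z - W'.card / r) / W'.card| ≤ δ' := by
          rw [abs_div, abs_of_pos hWc', div_le_iff₀ hWc']
          exact h2
        calc |x| * |(y - W.card / r) / W.card - (z - W'.card / r) / W'.card| ≤
            1 * |(y - W.card / r) / W.card - (z - W'.card / r) / W'.card| := mul_le_mul_of_nonneg_right h3 (abs_nonneg _)
          _ ≤ δ + δ' := by
              rw [one_mul]
              refine (abs_sub _ _).trans ?_
              exact add_le_add h4 h5
    _ = (Fintype.card A : ℝ) ^ J.card * (δ + δ') := by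
        rw [Finset.sum_const, nsmul_eq_mul, card_univ, Fintype.card_fun]
        simp

/-- comparison of moments -/
lemma mom_cmp {Ω' : Type*} (W : Finset Ω) (σ : Ω → ℕ → A) (W' : Finset Ω') (σ' : Ω' → ℕ → A) (S : Finset ℕ) (m : ℕ)
    (δ δ' : ℝ) (hW : W.Nonempty) (hW' : W'.Nonempty) (h : Ind W σ S m δ) (h' : Ind W' σ' S m δ')
    (hδ : 0 ≤ δ + δ') (g : ℕ → A → ℝ) (hg : ∀ k x, |g k x| ≤ 1) (a0 : A) (l : ℕ) (hl : l ≤ m) :
    |(∑ ω ∈ W, (∑ k ∈ S, g k (σ ω k)) ^ l) / W.card - (∑ ω ∈ W', (∑ k ∈ S, g k (σ' ω k)) ^ l) / W'.card| ≤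
      ((S.card : ℝ) * Fintype.card A) ^ l * (δ + δ') := by
  have hexp : ∀ u : ℕ → A, (∑ k ∈ S, g k (u k)) ^ l = ∑ p ∈ Fintype.piFinset (fun _ : Fin l => S), ∏ j, g (p j) (u (p j)) := by
    intro u
    have := Finset.prod_univ_sum (fun _ : Fin l => S) (fun _ k => g k (u k))
    rw [← this, Finset.prod_const, card_univ, Fintype.card_fin]
  have hA : (1 : ℝ) ≤ Fintype.card A := by
    haveI : Nonempty A := ⟨a0⟩
    exact_mod_cast Fintype.card_pos
  simp only [hexp]
  rw [Finset.sum_comm, Finset.sum_comm (s := W'), Finset.sum_div, Finset.sum_div, ← Finset.sum_sub_distrib]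
  refine (Finset.abs_sum_le_sum_abs _ _).trans ?_
  calc ∑ p ∈ Fintype.piFinset (fun _ : Fin l => S), |(∑ ω ∈ W, ∏ j, g (p j) (σ ω (p j))) / W.card -
        (∑ ω ∈ W', ∏ j, g (p j) (σ' ω (p j))) / W'.card| ≤
      ∑ _p ∈ Fintype.piFinset (fun _ : Fin l => S), (Fintype.card A : ℝ) ^ l * (δ + δ') := by
        apply Finset.sum_le_sum
        intro p hp
        rw [Fintype.mem_piFinset] at hp
        have hJS : univ.image p ⊆ S := by
          intro k hk
          rw [mem_image] at hk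
          obtain ⟨j, _, rfl⟩ := hk
          exact hp j
        have hJc : (univ.image p).card ≤ l := by
          refine card_image_le.trans ?_
          rw [card_univ, Fintype.card_fin]
        have h1 := fun_cmp W σ W' σ' S m δ δ' hW hW' h h' (univ.image p) hJS (hJc.trans hl)
          (fun u => ∏ j, g (p j) (u (p j))) (by
            intro u v huv
            apply Finset.prod_congr rfl
            intro j _
            rw [huv (p j) (mem_image_of_mem p (mem_univ j))])
          (by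
            intro u
            rw [Finset.abs_prod]
            exact Finset.prod_le_one (fun j _ => abs_nonneg _) (fun j _ => hg _ _)) a0
        refine h1.trans ?_
        apply mul_le_mul_of_nonneg_right _ hδ
        exact pow_le_pow_right₀ hA hJc
    _ = _ := by
        rw [Finset.sum_const, nsmul_eq_mul, Fintype.card_piFinset]
        simp only [Finset.prod_const, card_univ, Fintype.card_fin]
        push_cast
        ring

/-- the model: independent uniformly distributed variables -/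
def md (S : Finset ℕ) (a0 : A) (r : S → A) (k : ℕ) : A := if h : k ∈ S then r ⟨k, h⟩ else a0

lemma ind_md (S : Finset ℕ) (a0 : A) (m : ℕ) : Ind (univ : Finset (S → A)) (md S a0) S m 0 := by
  intro J hJ _ e
  haveI : Nonempty A := ⟨a0⟩
  have hA : (Fintype.card A : ℝ) ≠ 0 := by exact_mod_cast Fintype.card_ne_zero
  have h1 : ((univ : Finset (S → A)).filter (fun r => ∀ k ∈ J, md S a0 r k = e k)) =
      Fintype.piFinset (fun k : S => if (k : ℕ) ∈ J then ({e k} : Finset A) else univ) := by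
    ext r
    rw [mem_filter, Fintype.mem_piFinset]
    constructor
    · rintro ⟨_, h⟩ k
      split_ifs with hk
      · rw [mem_singleton, ← h k hk]
        unfold md
        rw [dif_pos k.2]
      · exact mem_univ _
    · intro h
      refine ⟨mem_univ _, ?_⟩
      intro k hk
      have h2 := h ⟨k, hJ hk⟩
      simp only at h2
      rw [if_pos hk, mem_singleton] at h2
      unfold md
      rw [dif_pos (hJ hk), h2]
  rw [h1, Fintype.card_piFinset]
  have h2 : ∏ k : S, (if (k : ℕ) ∈ J then ({e k} : Finset A) else univ).card = Fintype.card A ^ (S.card - J.card) := by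
    have h3 : ∀ k : S, (if (k : ℕ) ∈ J then ({e k} : Finset A) else univ).card = if (k : ℕ) ∈ J then 1 else Fintype.card A := by
      intro k
      split_ifs
      · exact card_singleton _
      · exact card_univ
    rw [Finset.prod_congr rfl (fun k _ => h3 k), Finset.prod_coe_sort S (fun k => if k ∈ J then 1 else Fintype.card A),
      Finset.prod_ite, Finset.prod_const_one, one_mul, Finset.prod_const]
    congr 1
    have h4 : S.filter (fun k => k ∉ J) = S \ J := by
      ext k
      rw [mem_filter, mem_sdiff]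
    rw [h4, card_sdiff_of_subset hJ]
  rw [h2, card_univ, Fintype.card_fun, Fintype.card_coe]
  push_cast
  have h5 : (Fintype.card A : ℝ) ^ (S.card - J.card) = (Fintype.card A : ℝ) ^ S.card / (Fintype.card A : ℝ) ^ J.card := by
    rw [eq_div_iff (pow_ne_zero _ hA), ← pow_add, Nat.sub_add_cancel (card_le_card hJ)]
  rw [h5, sub_self, abs_zero, zero_mul]

lemma md_sum (S : Finset ℕ) (a0 : A) (g : ℕ → A → ℝ) (r : S → A) :
    ∑ k ∈ S, g k (md S a0 r k) = ∑ k : S, g k (r k) := by
  rw [← Finset.sum_coe_sort S]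
  apply Finset.sum_congr rfl
  intro k _
  unfold md
  rw [dif_pos k.2]

/-- the Laplace transform of the model -/
lemma md_exp (S : Finset ℕ) (a0 : A) (g : ℕ → A → ℝ) (z : ℂ) :
    ∑ r : S → A, Complex.exp (z * ((∑ k ∈ S, g k (md S a0 r k) : ℝ) : ℂ)) =
      ∏ k ∈ S, ∑ x : A, Complex.exp (z * (g k x : ℂ)) := by
  have h := Finset.prod_univ_sum (fun _ : S => (univ : Finset A)) (fun (k : S) x => Complex.exp (z * (g k x : ℂ)))
  rw [Finset.prod_coe_sort S (fun k => ∑ x : A, Complex.exp (z * (g k x : ℂ)))] at h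
  rw [h, Fintype.piFinset_univ]
  apply Finset.sum_congr rfl
  intro r _
  rw [md_sum, ← Complex.exp_sum]
  congr 1
  push_cast
  rw [Finset.mul_sum]

lemma md_exp_real (S : Finset ℕ) (a0 : A) (g : ℕ → A → ℝ) (θ : ℝ) :
    ∑ r : S → A, Real.exp (θ * (∑ k ∈ S, g k (md S a0 r k))) = ∏ k ∈ S, ∑ x : A, Real.exp (θ * g k x) := by
  have h := Finset.prod_univ_sum (fun _ : S => (univ : Finset A)) (fun (k : S) x => Real.exp (θ * g k x))
  rw [Finset.prod_coe_sort S (fun k => ∑ x : A, Real.exp (θ * g k x))] at h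
  rw [h, Fintype.piFinset_univ]
  apply Finset.sum_congr rfl
  intro r _
  rw [md_sum, ← Real.exp_sum]
  congr 1
  rw [Finset.mul_sum]

/-- the variance of a function on `A` -/
noncomputable def vr (g : A → ℝ) : ℝ := (∑ x : A, g x ^ 2) / Fintype.card A

lemma vr_nonneg (g : A → ℝ) : 0 ≤ vr g := by
  unfold vr
  positivity

lemma vr_le_one [Nonempty A] (g : A → ℝ) (hg : ∀ x, |g x| ≤ 1) : vr g ≤ 1 := by
  unfold vr
  have hA : (0 : ℝ) < Fintype.card A := by exact_mod_cast Fintype.card_pos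
  rw [div_le_one hA]
  calc ∑ x : A, g x ^ 2 ≤ ∑ _x : A, (1 : ℝ) := by
        apply Finset.sum_le_sum
        intro x _
        rw [← sq_abs]
        have := hg x
        nlinarith [abs_nonneg (g x)]
    _ = Fintype.card A := by rw [Finset.sum_const, card_univ, nsmul_eq_mul, mul_one]

lemma lap_one [Nonempty A] (g : A → ℝ) (hg : ∀ x, |g x| ≤ 1) (h0 : ∑ x, g x = 0) (θ : ℝ) (hθ : |θ| ≤ 1) :
    ∑ x : A, Real.exp (θ * g x) ≤ Fintype.card A * Real.exp (θ ^ 2 * vr g) := by
  have hA : (0 : ℝ) < Fintype.card A := by exact_mod_cast Fintype.card_pos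
  have h1 : ∀ x, Real.exp (θ * g x) ≤ 1 + θ * g x + θ ^ 2 * g x ^ 2 := by
    intro x
    have h2 := Real.abs_exp_sub_one_sub_id_le (x := θ * g x) (by
      rw [abs_mul]
      calc |θ| * |g x| ≤ 1 * 1 := mul_le_mul hθ (hg x) (abs_nonneg _) zero_le_one
        _ = 1 := one_mul 1)
    have h3 := (abs_le.1 h2).2
    rw [mul_pow] at h3
    linarith
  calc ∑ x : A, Real.exp (θ * g x) ≤ ∑ x : A, (1 + θ * g x + θ ^ 2 * g x ^ 2) := Finset.sum_le_sum fun x _ => h1 x
    _ = Fintype.card A * (1 + θ ^ 2 * vr g) := by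
        rw [Finset.sum_add_distrib, Finset.sum_add_distrib, ← Finset.mul_sum, ← Finset.mul_sum, h0, Finset.sum_const,
          card_univ, nsmul_eq_mul, mul_one, mul_zero, add_zero]
        unfold vr
        field_simp
    _ ≤ Fintype.card A * Real.exp (θ ^ 2 * vr g) := by
        apply mul_le_mul_of_nonneg_left _ hA.le
        linarith [Real.add_one_le_exp (θ ^ 2 * vr g)]

/-- high moments of the model -/
lemma md_mom (S : Finset ℕ) (a0 : A) (g : ℕ → A → ℝ) (hg : ∀ k x, |g k x| ≤ 1) (h0 : ∀ k, ∑ x, g k x = 0) (s : ℕ)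
    (θ : ℝ) (hθ0 : 0 < θ) (hθ : θ ≤ 1) :
    θ ^ (2 * s) * ((∑ r : S → A, (∑ k ∈ S, g k (md S a0 r k)) ^ (2 * s)) / (Fintype.card (S → A))) ≤
      2 * (2 * s).factorial * Real.exp (θ ^ 2 * ∑ k ∈ S, vr (g k)) := by
  haveI : Nonempty A := ⟨a0⟩
  have hA : (0 : ℝ) < Fintype.card A := by exact_mod_cast Fintype.card_pos
  have hcard : ((Fintype.card (S → A) : ℕ) : ℝ) = (Fintype.card A : ℝ) ^ S.card := by
    rw [Fintype.card_fun, Fintype.card_coe]
    push_cast
    rfl
  have hexp : ∀ τ : ℝ, |τ| ≤ 1 → ∑ r : S → A, Real.exp (τ * (∑ k ∈ S, g k (md S a0 r k))) ≤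
      (Fintype.card A : ℝ) ^ S.card * Real.exp (τ ^ 2 * ∑ k ∈ S, vr (g k)) := by
    intro τ hτ
    rw [md_exp_real]
    calc ∏ k ∈ S, ∑ x : A, Real.exp (τ * g k x) ≤ ∏ k ∈ S, (Fintype.card A * Real.exp (τ ^ 2 * vr (g k))) := by
          apply Finset.prod_le_prod
          · intro k _
            positivity
          · intro k _
            exact lap_one (g k) (hg k) (h0 k) τ hτ
      _ = _ := by
          rw [Finset.prod_mul_distrib, Finset.prod_const, ← Real.exp_sum, Finset.mul_sum]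
  have h1 := hexp θ (by rw [abs_of_pos hθ0]; exact hθ)
  have h2 := hexp (-θ) (by rw [abs_neg, abs_of_pos hθ0]; exact hθ)
  rw [neg_sq] at h2
  have h3 : ∀ y : ℝ, (θ * y) ^ (2 * s) ≤ (2 * s).factorial * (Real.exp (θ * y) + Real.exp (-θ * y)) := by
    intro y
    have h4 := Real.pow_div_factorial_le_exp |θ * y| (abs_nonneg _) (2 * s)
    rw [div_le_iff₀ (by positivity)] at h4
    have h5 : |θ * y| ^ (2 * s) = (θ * y) ^ (2 * s) := by
      rw [pow_mul, sq_abs, ← pow_mul]
    rw [h5] at h4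
    have h6 : Real.exp |θ * y| ≤ Real.exp (θ * y) + Real.exp (-θ * y) := by
      rcases abs_cases (θ * y) with ⟨h, _⟩ | ⟨h, _⟩
      · rw [h]
        have := Real.exp_pos (-θ * y)
        linarith
      · rw [h]
        have := Real.exp_pos (θ * y)
        have e : -(θ * y) = -θ * y := by ring
        rw [e]
        linarith
    calc (θ * y) ^ (2 * s) ≤ Real.exp |θ * y| * (2 * s).factorial := h4
      _ ≤ (Real.exp (θ * y) + Real.exp (-θ * y)) * (2 * s).factorial := mul_le_mul_of_nonneg_right h6 (Nat.cast_nonneg _)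
      _ = _ := by ring
  rw [mul_div_assoc', hcard, div_le_iff₀ (by positivity), Finset.mul_sum]
  calc ∑ r : S → A, θ ^ (2 * s) * (∑ k ∈ S, g k (md S a0 r k)) ^ (2 * s) ≤
      ∑ r : S → A, (2 * s).factorial * (Real.exp (θ * (∑ k ∈ S, g k (md S a0 r k))) +
        Real.exp (-θ * (∑ k ∈ S, g k (md S a0 r k)))) := by
        apply Finset.sum_le_sum
        intro r _
        rw [← mul_pow]
        exact h3 _
    _ = (2 * s).factorial * (∑ r : S → A, Real.exp (θ * (∑ k ∈ S, g k (md S a0 r k))) +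
        ∑ r : S → A, Real.exp (-θ * (∑ k ∈ S, g k (md S a0 r k)))) := by
        rw [← Finset.mul_sum, Finset.sum_add_distrib]
    _ ≤ (2 * s).factorial * ((Fintype.card A : ℝ) ^ S.card * Real.exp (θ ^ 2 * ∑ k ∈ S, vr (g k)) +
        (Fintype.card A : ℝ) ^ S.card * Real.exp (θ ^ 2 * ∑ k ∈ S, vr (g k))) := by
        apply mul_le_mul_of_nonneg_left _ (Nat.cast_nonneg _)
        exact add_le_add h1 h2
    _ = _ := by ring

end Pool.Agent.Q236.LP
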