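import Mathlib

set_option autoImplicit false

/-!
# Closeness of distribution functions from closeness of characteristic functions
-/

namespace Pool.Agent.Q236.LP

open MeasureTheory ProbabilityTheory Filter Set Topology

/-- the standard normal law -/
noncomputable abbrev nml : Measure ℝ := gaussianReal 0 1

/-- the distribution function of the standard normal law -/
noncomputable def Phi (x : ℝ) : ℝ := nml.real (Iic x)

lemma Phi_cdf (x : ℝ) : Phi x = cdf nml x := by
  rw [cdf_eq_real]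
  rfl

lemma Phi_mono : Monotone Phi := by
  intro x y h
  rw [Phi_cdf, Phi_cdf]
  exact monotone_cdf _ h

lemma Phi_cont : Continuous Phi := by
  have e : Phi = fun x => cdf nml x := by
    ext x
    exact Phi_cdf x
  rw [e]
  rw [continuous_iff_continuousAt]
  intro x
  have hm : Monotone (fun x => cdf nml x) := monotone_cdf _
  rw [hm.continuousAt_iff_leftLim_eq_rightLim]
  have h1 : (cdf nml).measure {x} = 0 := by
    rw [measure_cdf]
    haveI := noAtoms_gaussianReal (μ := 0) (v := 1) (by norm_num)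
    exact measure_singleton x
  rw [StieltjesFunction.measure_singleton, ENNReal.ofReal_eq_zero] at h1
  have h2 : Function.leftLim (cdf nml) x ≤ cdf nml x := (monotone_cdf _).leftLim_le le_rfl
  have h3 : Function.rightLim (cdf nml) x = cdf nml x := (cdf nml).rightLim_eq x
  have h4 : Function.leftLim (cdf nml) x = cdf nml x := by linarith
  exact h4.trans h3.symm

lemma Phi_nonneg (x : ℝ) : 0 ≤ Phi x := by rw [Phi_cdf]; exact cdf_nonneg _ _

lemma Phi_le_one (x : ℝ) : Phi x ≤ 1 := by rw [Phi_cdf]; exact cdf_le_one _ _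

lemma Phi_surj (y : ℝ) (h0 : 0 < y) (h1 : y < 1) : ∃ x, Phi x = y := by
  have hbot : Tendsto Phi atBot (𝓝 0) := by
    have := tendsto_cdf_atBot nml
    refine this.congr ?_
    intro x
    exact (Phi_cdf x).symm
  have htop : Tendsto Phi atTop (𝓝 1) := by
    have := tendsto_cdf_atTop nml
    refine this.congr ?_
    intro x
    exact (Phi_cdf x).symm
  obtain ⟨a, ha⟩ := (hbot.eventually (gt_mem_nhds h0)).exists
  obtain ⟨b, hb⟩ := (htop.eventually (lt_mem_nhds h1)).exists
  exact mem_range_of_exists_le_of_exists_ge Phi_cont ⟨a, ha.le⟩ ⟨b, hb.le⟩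

/-- Polya's theorem -/
lemma polya (ε : ℝ) (hε : 0 < ε) : ∃ G : Finset ℝ, ∀ μ : Measure ℝ, IsProbabilityMeasure μ →
    (∀ y ∈ G, |μ.real (Iic y) - Phi y| ≤ ε / 2) → ∀ x, |μ.real (Iic x) - Phi x| ≤ ε := by
  obtain ⟨n, hn⟩ : ∃ n : ℕ, n = ⌈4 / ε⌉₊ + 1 := ⟨_, rfl⟩
  have hn0 : (0 : ℝ) < n := by rw [hn]; positivity
  have hnε : 4 / ε ≤ n := by
    rw [hn]
    push_cast
    linarith [Nat.le_ceil (4 / ε)]
  have h1n : 2 / (n : ℝ) ≤ ε / 2 := by
    rw [div_le_div_iff₀ hn0 (by norm_num)]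
    rw [div_le_iff₀ hε] at hnε
    linarith
  have hpt : ∀ j : ℕ, ∃ x, 1 ≤ j → j < n → Phi x = j / n := by
    intro j
    by_cases hj : 1 ≤ j ∧ j < n
    · have hj1 : (0 : ℝ) < j := by exact_mod_cast hj.1
      have hj2 : (j : ℝ) < n := by exact_mod_cast hj.2
      obtain ⟨x, hx⟩ := Phi_surj ((j : ℝ) / n) (by positivity) (by rw [div_lt_one hn0]; exact hj2)
      exact ⟨x, fun _ _ => hx⟩
    · exact ⟨0, fun h2 h3 => absurd ⟨h2, h3⟩ hj⟩
  choose X hX using hpt
  refine ⟨(Finset.range n).image X, ?_⟩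
  intro μ hμ hG x
  have hG' : ∀ j : ℕ, 1 ≤ j → j < n → |μ.real (Iic (X j)) - j / n| ≤ ε / 2 := by
    intro j h1 h2
    have := hG (X j) (Finset.mem_image_of_mem X (Finset.mem_range.2 h2))
    rwa [hX j h1 h2] at this
  have hmono : ∀ u v : ℝ, u ≤ v → μ.real (Iic u) ≤ μ.real (Iic v) := fun u v h => measureReal_mono (Iic_subset_Iic.2 h)
  have hle1 : μ.real (Iic x) ≤ 1 := measureReal_le_one
  have hge0 : 0 ≤ μ.real (Iic x) := measureReal_nonneg
  have hP0 := Phi_nonneg x
  have hP1 := Phi_le_one x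
  obtain ⟨j, hj⟩ : ∃ j : ℕ, j = ⌊n * Phi x⌋₊ := ⟨_, rfl⟩
  have hj1 : (j : ℝ) ≤ n * Phi x := by rw [hj]; exact Nat.floor_le (by positivity)
  have hj2 : n * Phi x < j + 1 := by rw [hj]; exact Nat.lt_floor_add_one _
  have hj1' : (j : ℝ) / n ≤ Phi x := by rw [div_le_iff₀ hn0]; linarith
  have hj2' : Phi x < (j + 1) / n := by rw [lt_div_iff₀ hn0]; linarith
  have hjn : j ≤ n := by
    have : (j : ℝ) ≤ n := by nlinarith
    exact_mod_cast this
  have h2n : (j + 1 : ℝ) / n = j / n + 1 / n := by ring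
  have h1n' : 1 / (n : ℝ) ≤ ε / 4 := by
    have : 2 / (n : ℝ) = 2 * (1 / n) := by ring
    linarith
  rw [abs_le]
  constructor
  · by_cases hj0 : 2 ≤ j
    · have h3 := hG' (j - 1) (by omega) (by omega)
      have h4 := hX (j - 1) (by omega) (by omega)
      have h5 : ((j - 1 : ℕ) : ℝ) = j - 1 := by rw [Nat.cast_sub (by omega), Nat.cast_one]
      rw [h5] at h3 h4
      have h6 : ((j : ℝ) - 1) / n = j / n - 1 / n := by ring
      have h7 : X (j - 1) ≤ x := by
        by_contra hcon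
        push Not at hcon
        have := Phi_mono hcon.le
        rw [h4, h6] at this
        have : 0 < 1 / (n : ℝ) := by positivity
        linarith
      have h8 := hmono _ _ h7
      have h9 := (abs_le.1 h3).1
      rw [h6] at h9
      linarith
    · push Not at hj0
      have h3 : (j : ℝ) ≤ 1 := by
        have : j ≤ 1 := by omega
        exact_mod_cast this
      have h4 : (j + 1 : ℝ) / n ≤ 2 / n := div_le_div_of_nonneg_right (by linarith) hn0.le
      linarith
  · by_cases hjn' : j + 1 < n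
    · have h3 := hG' (j + 1) (by omega) hjn'
      have h4 := hX (j + 1) (by omega) hjn'
      push_cast at h3 h4
      have h7 : x ≤ X (j + 1) := by
        by_contra hcon
        push Not at hcon
        have := Phi_mono hcon.le
        rw [h4] at this
        linarith
      have h8 := hmono _ _ h7
      have h9 := (abs_le.1 h3).2
      linarith
    · push Not at hjn'
      have h3 : (n : ℝ) ≤ j + 1 := by exact_mod_cast hjn'
      have h4 : (1 : ℝ) ≤ (j + 1) / n := by rw [one_le_div hn0]; exact h3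
      linarith

/-- **Closeness of distribution functions from closeness of characteristic functions** -/
theorem cdf_close (ε : ℝ) (hε : 0 < ε) : ∃ T δ : ℝ, 0 < T ∧ 0 < δ ∧ ∀ μ : Measure ℝ, IsProbabilityMeasure μ →
    (∀ t : ℝ, |t| ≤ T → ‖charFun μ t - (Real.exp (-(t ^ 2 / 2)) : ℂ)‖ ≤ δ) → ∀ x, |μ.real (Iic x) - Phi x| ≤ ε := by
  obtain ⟨G, hG⟩ := polya ε hε
  by_contra hcon
  push Not at hcon
  have h1 : ∀ m : ℕ, ∃ μ : Measure ℝ, IsProbabilityMeasure μ ∧
      (∀ t : ℝ, |t| ≤ m + 1 → ‖charFun μ t - (Real.exp (-(t ^ 2 / 2)) : ℂ)‖ ≤ 1 / (m + 1)) ∧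
      ∃ y ∈ G, ε / 2 < |μ.real (Iic y) - Phi y| := by
    intro m
    obtain ⟨μ, hμ, h2, x, hx⟩ := hcon (m + 1) (1 / (m + 1)) (by positivity) (by positivity)
    refine ⟨μ, hμ, h2, ?_⟩
    by_contra hno
    push Not at hno
    have := hG μ hμ hno x
    linarith
  choose μ hμ hchar hbad using h1
  obtain ⟨P, hP⟩ : ∃ P : ℕ → ProbabilityMeasure ℝ, P = fun m => ⟨μ m, hμ m⟩ := ⟨_, rfl⟩
  obtain ⟨P0, hP0⟩ : ∃ P0 : ProbabilityMeasure ℝ, P0 = ⟨nml, inferInstance⟩ := ⟨_, rfl⟩
  have htend : Tendsto P atTop (𝓝 P0) := by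
    apply ProbabilityMeasure.tendsto_of_tendsto_charFun
    intro t
    rw [hP, hP0]
    simp only [ProbabilityMeasure.coe_mk]
    have e : charFun nml t = (Real.exp (-(t ^ 2 / 2)) : ℂ) := by
      rw [charFun_gaussianReal]
      push_cast
      congr 1
      simp
    rw [e, tendsto_iff_norm_sub_tendsto_zero]
    have h2 : Tendsto (fun m : ℕ => 1 / ((m : ℝ) + 1)) atTop (𝓝 0) := tendsto_one_div_add_atTop_nhds_zero_nat
    apply tendsto_of_tendsto_of_tendsto_of_le_of_le' tendsto_const_nhds h2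
    · exact Eventually.of_forall fun m => norm_nonneg _
    · filter_upwards [eventually_ge_atTop ⌈|t|⌉₊] with m hm
      apply hchar m t
      have : |t| ≤ (⌈|t|⌉₊ : ℝ) := Nat.le_ceil _
      have h3 : ((⌈|t|⌉₊ : ℕ) : ℝ) ≤ m := by exact_mod_cast hm
      linarith
  have h2 : ∀ y ∈ G, ∀ᶠ m in atTop, |(μ m).real (Iic y) - Phi y| ≤ ε / 2 := by
    intro y _
    have hfr : (P0 : Measure ℝ) (frontier (Iic y)) = 0 := by
      rw [frontier_Iic, hP0]
      simp only [ProbabilityMeasure.coe_mk]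
      haveI := noAtoms_gaussianReal (μ := 0) (v := 1) (by norm_num)
      exact measure_singleton y
    have h3 := ProbabilityMeasure.tendsto_measure_of_null_frontier_of_tendsto' htend hfr
    have h4 : Tendsto (fun m => (μ m).real (Iic y)) atTop (𝓝 (Phi y)) := by
      unfold Phi Measure.real
      have h5 := (ENNReal.tendsto_toReal (measure_ne_top (P0 : Measure ℝ) (Iic y))).comp h3
      rw [hP0, hP] at h5
      exact h5
    have h6 := (Metric.tendsto_nhds.1 h4) (ε / 2) (by positivity)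
    filter_upwards [h6] with m hm
    rw [Real.dist_eq] at hm
    exact hm.le
  have h3 : ∀ᶠ m in atTop, ∀ y ∈ G, |(μ m).real (Iic y) - Phi y| ≤ ε / 2 := by
    rw [Filter.eventually_all_finset]
    exact h2
  obtain ⟨m, hm⟩ := h3.exists
  obtain ⟨y, hy, hy2⟩ := hbad m
  linarith [hm y hy]

end Pool.Agent.Q236.LP
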