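import Pool.Agent.Q236.LP.Abs

set_option autoImplicit false

/-!
# Characteristic functions from moments
-/

namespace Pool.Agent.Q236.LP

open Finset Complex

/-- Taylor's formula for `e^{iy}` -/
lemma taylor_exp (n : ℕ) (y : ℝ) :
    ‖cexp (y * I) - ∑ m ∈ range n, (y * I) ^ m / (m.factorial : ℂ)‖ ≤ |y| ^ n / n.factorial := by
  induction n generalizing y with
  | zero => simp [Complex.norm_exp_ofReal_mul_I]
  | succ n ih =>
    obtain ⟨f, hf⟩ : ∃ f : ℝ → ℂ, f = fun y : ℝ => cexp (y * I) - ∑ m ∈ range (n + 1), (y * I) ^ m / (m.factorial : ℂ) := ⟨_, rfl⟩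
    have hder : ∀ y : ℝ, HasDerivAt f (I * (cexp (y * I) - ∑ m ∈ range n, (y * I) ^ m / (m.factorial : ℂ))) y := by
      intro y
      have h1 : HasDerivAt (fun y : ℝ => ((y : ℂ) * I)) I y := by
        have := (Complex.ofRealCLM.hasDerivAt (x := y)).mul_const I
        simpa using this
      have h2 : HasDerivAt (fun y : ℝ => cexp (y * I)) (cexp (y * I) * I) y := h1.cexp
      have h3 : HasDerivAt (fun y : ℝ => ∑ m ∈ range (n + 1), ((y : ℂ) * I) ^ m / (m.factorial : ℂ))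
          (∑ m ∈ range (n + 1), ((m : ℂ) * ((y : ℂ) * I) ^ (m - 1) * I) / (m.factorial : ℂ)) y := by
        apply HasDerivAt.fun_sum
        intro m _
        exact (h1.pow m).div_const _
      have h4 := h2.sub h3
      rw [hf]
      convert! h4 using 1
      rw [Finset.sum_range_succ', mul_sub, Finset.mul_sum]
      simp only [Nat.cast_zero, zero_mul, zero_div, add_zero]
      congr 1
      · ring
      · apply Finset.sum_congr rfl
        intro m _
        rw [Nat.factorial_succ, Nat.add_sub_cancel]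
        have h5 : ((m + 1 : ℕ) : ℂ) ≠ 0 := by exact_mod_cast Nat.succ_ne_zero m
        have h6 : (m.factorial : ℂ) ≠ 0 := by exact_mod_cast Nat.factorial_ne_zero m
        push_cast at h5 ⊢
        field_simp
    have hf0 : f 0 = 0 := by
      rw [hf]
      simp only
      rw [Finset.sum_range_succ']
      simp
    have key : ∀ s : ℝ, |s| = 1 → ∀ t : ℝ, 0 ≤ t → ‖f (s * t)‖ ≤ t ^ (n + 1) / (n + 1).factorial := by
      intro s hs t ht
      have h1 : ∀ x : ℝ, HasDerivAt (fun t => f (s * t)) ((s : ℂ) * (I * (cexp ((s * x : ℝ) * I) -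
          ∑ m ∈ range n, ((s * x : ℝ) * I) ^ m / (m.factorial : ℂ)))) x := by
        intro x
        have h2 : HasDerivAt (fun t : ℝ => s * t) s x := by simpa using (hasDerivAt_id x).const_mul s
        have h3 := (hder (s * x)).scomp x h2
        simpa [Function.comp_def] using h3
      have h2 : ∀ x : ℝ, HasDerivAt (fun t : ℝ => t ^ (n + 1) / ((n + 1).factorial : ℝ)) (x ^ n / n.factorial) x := by
        intro x
        have h3 := (hasDerivAt_pow (n + 1) x).div_const ((n + 1).factorial : ℝ)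
        convert! h3 using 1
        rw [Nat.factorial_succ, Nat.add_sub_cancel]
        have : ((n + 1 : ℕ) : ℝ) ≠ 0 := by exact_mod_cast Nat.succ_ne_zero n
        push_cast at this ⊢
        field_simp
      have h3 := image_norm_le_of_norm_deriv_right_le_deriv_boundary' (a := 0) (b := t) (f := fun t => f (s * t))
        (f' := fun x => (s : ℂ) * (I * (cexp ((s * x : ℝ) * I) - ∑ m ∈ range n, ((s * x : ℝ) * I) ^ m / (m.factorial : ℂ))))
        (fun x _ => (h1 x).continuousAt.continuousWithinAt) (fun x _ => (h1 x).hasDerivWithinAt)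
        (B := fun t => t ^ (n + 1) / ((n + 1).factorial : ℝ)) (B' := fun x => x ^ n / n.factorial)
        (by simp [hf0]) (fun x _ => (h2 x).continuousAt.continuousWithinAt) (fun x _ => (h2 x).hasDerivWithinAt)
        (by
          intro x hx
          rw [norm_mul, norm_mul, Complex.norm_I, one_mul, Complex.norm_real, Real.norm_eq_abs, hs, one_mul]
          refine (ih (s * x)).trans (le_of_eq ?_)
          rw [abs_mul, hs, one_mul, abs_of_nonneg hx.1])
        (⟨ht, le_rfl⟩ : t ∈ Set.Icc 0 t)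
      exact h3
    have e : cexp (y * I) - ∑ m ∈ range (n + 1), (y * I) ^ m / (m.factorial : ℂ) = f y := by rw [hf]
    rw [e]
    rcases le_or_gt 0 y with h | h
    · have := key 1 (by simp) y h
      rw [one_mul] at this
      rwa [abs_of_nonneg h]
    · have := key (-1) (by simp) (-y) (by linarith)
      rw [neg_one_mul, neg_neg] at this
      rwa [abs_of_neg h]

/-- the average of a Taylor polynomial -/
lemma tay_avg {Ω' : Type*} (W' : Finset Ω') (x' : Ω' → ℝ) (hW' : (0 : ℝ) < W'.card) (s : ℕ) (θ : ℝ) :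
    ‖(∑ ω ∈ W', cexp ((θ * x' ω : ℝ) * I)) / W'.card -
      ∑ m ∈ range (2 * s), ((θ * I) ^ m / (m.factorial : ℂ)) * (((∑ ω ∈ W', x' ω ^ m) / W'.card : ℝ) : ℂ)‖ ≤
    |θ| ^ (2 * s) / (2 * s).factorial * ((∑ ω ∈ W', x' ω ^ (2 * s)) / W'.card) := by
  have e1 : ∑ m ∈ range (2 * s), ((θ * I) ^ m / (m.factorial : ℂ)) * (((∑ ω ∈ W', x' ω ^ m) / W'.card : ℝ) : ℂ) =
      (∑ ω ∈ W', ∑ m ∈ range (2 * s), (((θ * x' ω : ℝ) : ℂ) * I) ^ m / (m.factorial : ℂ)) / W'.card := by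
    rw [Finset.sum_comm, Finset.sum_div]
    apply Finset.sum_congr rfl
    intro m _
    push_cast
    rw [mul_div_assoc', Finset.mul_sum]
    congr 1
    apply Finset.sum_congr rfl
    intro ω _
    ring
  rw [e1, ← sub_div, ← Finset.sum_sub_distrib, norm_div, Complex.norm_natCast, ← mul_div_assoc]
  apply div_le_div_of_nonneg_right _ hW'.le
  refine (norm_sum_le _ _).trans ?_
  rw [Finset.mul_sum]
  apply Finset.sum_le_sum
  intro ω _
  refine (taylor_exp (2 * s) (θ * x' ω)).trans (le_of_eq ?_)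
  rw [abs_mul, mul_pow]
  have : |x' ω| ^ (2 * s) = x' ω ^ (2 * s) := by rw [pow_mul, sq_abs, ← pow_mul]
  rw [this]
  ring

variable {Ω A : Type*} [Fintype A] [DecidableEq A]

/-- comparison of the characteristic functions -/
lemma char_cmp (W : Finset Ω) (σ : Ω → ℕ → A) (S : Finset ℕ) (s : ℕ) (δ : ℝ) (hW : W.Nonempty)
    (h : Ind W σ S (2 * s) δ) (hδ : 0 ≤ δ) (g : ℕ → A → ℝ) (hg : ∀ k x, |g k x| ≤ 1) (a0 : A) (θ : ℝ) :
    ‖(∑ ω ∈ W, cexp ((θ * ∑ k ∈ S, g k (σ ω k) : ℝ) * I)) / W.card -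
      (∑ r : S → A, cexp ((θ * ∑ k ∈ S, g k (md S a0 r k) : ℝ) * I)) / (Fintype.card (S → A))‖ ≤
      (2 * s + 1) * (1 + |θ| * (S.card * Fintype.card A)) ^ (2 * s) * δ + 2 * (|θ| ^ (2 * s) / (2 * s).factorial *
        ((∑ r : S → A, (∑ k ∈ S, g k (md S a0 r k)) ^ (2 * s)) / (Fintype.card (S → A)))) := by
  haveI : Nonempty A := ⟨a0⟩
  have hWc : (0 : ℝ) < W.card := by exact_mod_cast hW.card_pos
  have hne : (univ : Finset (S → A)).Nonempty := ⟨fun _ => a0, mem_univ _⟩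
  have hMc : (0 : ℝ) < ((univ : Finset (S → A)).card : ℝ) := by exact_mod_cast hne.card_pos
  have hcu : ((univ : Finset (S → A)).card) = Fintype.card (S → A) := card_univ
  rw [← hcu]
  obtain ⟨x, hx⟩ : ∃ x : Ω → ℝ, x = fun ω => ∑ k ∈ S, g k (σ ω k) := ⟨_, rfl⟩
  obtain ⟨y, hy⟩ : ∃ y : (S → A) → ℝ, y = fun r => ∑ k ∈ S, g k (md S a0 r k) := ⟨_, rfl⟩
  have hxω : ∀ ω, ∑ k ∈ S, g k (σ ω k) = x ω := fun ω => by rw [hx]
  have hyr : ∀ r, ∑ k ∈ S, g k (md S a0 r k) = y r := fun r => by rw [hy]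
  have hmom : ∀ l, l ≤ 2 * s → |(∑ ω ∈ W, x ω ^ l) / W.card - (∑ r : S → A, y r ^ l) / (univ : Finset (S → A)).card| ≤
      ((S.card : ℝ) * Fintype.card A) ^ l * δ := by
    intro l hl
    have := mom_cmp W σ univ (md S a0) S (2 * s) δ 0 hW hne h (ind_md S a0 _) (by linarith) g hg a0 l hl
    rw [add_zero] at this
    simp only [hxω, hyr] at this
    exact this
  simp only [hxω, hyr]
  obtain ⟨Q, hQ⟩ : ∃ Q : ℝ, Q = (S.card : ℝ) * Fintype.card A := ⟨_, rfl⟩
  rw [← hQ] at hmom ⊢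
  have hQ0 : 0 ≤ Q := by rw [hQ]; positivity
  have h1 := tay_avg W x hWc s θ
  have h2 := tay_avg univ y hMc s θ
  obtain ⟨M1, hM1⟩ : ∃ M1 : ℕ → ℝ, M1 = fun m => (∑ ω ∈ W, x ω ^ m) / W.card := ⟨_, rfl⟩
  obtain ⟨M2, hM2⟩ : ∃ M2 : ℕ → ℝ, M2 = fun m => (∑ r : S → A, y r ^ m) / (univ : Finset (S → A)).card := ⟨_, rfl⟩
  have hm1 : ∀ m, (∑ ω ∈ W, x ω ^ m) / (W.card : ℝ) = M1 m := fun m => by rw [hM1]
  have hm2 : ∀ m, (∑ r : S → A, y r ^ m) / ((univ : Finset (S → A)).card : ℝ) = M2 m := fun m => by rw [hM2]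
  simp only [hm1] at h1 hmom
  simp only [hm2] at h2 hmom ⊢
  obtain ⟨a, ha⟩ : ∃ a : ℂ, a = (∑ ω ∈ W, cexp ((θ * x ω : ℝ) * I)) / W.card := ⟨_, rfl⟩
  obtain ⟨b, hb⟩ : ∃ b : ℂ, b = (∑ r : S → A, cexp ((θ * y r : ℝ) * I)) / (univ : Finset (S → A)).card := ⟨_, rfl⟩
  rw [← ha] at h1 ⊢
  rw [← hb] at h2 ⊢
  have h3 : ‖∑ m ∈ range (2 * s), ((θ * I) ^ m / (m.factorial : ℂ)) * ((M1 m : ℝ) : ℂ) -
      ∑ m ∈ range (2 * s), ((θ * I) ^ m / (m.factorial : ℂ)) * ((M2 m : ℝ) : ℂ)‖ ≤ 2 * s * (1 + |θ| * Q) ^ (2 * s) * δ := by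
    rw [← Finset.sum_sub_distrib]
    refine (norm_sum_le _ _).trans ?_
    calc ∑ m ∈ range (2 * s), ‖((θ * I) ^ m / (m.factorial : ℂ)) * ((M1 m : ℝ) : ℂ) -
          ((θ * I) ^ m / (m.factorial : ℂ)) * ((M2 m : ℝ) : ℂ)‖ ≤ ∑ _m ∈ range (2 * s), (1 + |θ| * Q) ^ (2 * s) * δ := by
          apply Finset.sum_le_sum
          intro m hm
          rw [mem_range] at hm
          rw [← mul_sub, norm_mul, norm_div, norm_pow, norm_mul, Complex.norm_I, mul_one, Complex.norm_real,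
            Complex.norm_natCast, Real.norm_eq_abs, ← Complex.ofReal_sub, Complex.norm_real, Real.norm_eq_abs]
          have h4 := hmom m hm.le
          have hf1 : (1 : ℝ) ≤ m.factorial := by exact_mod_cast Nat.one_le_iff_ne_zero.2 (Nat.factorial_ne_zero m)
          calc |θ| ^ m / (m.factorial : ℝ) * |M1 m - M2 m| ≤ |θ| ^ m * (Q ^ m * δ) := by
                apply mul_le_mul (div_le_self (by positivity) hf1) h4 (abs_nonneg _) (by positivity)
            _ = (|θ| * Q) ^ m * δ := by rw [mul_pow]; ring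
            _ ≤ (1 + |θ| * Q) ^ (2 * s) * δ := by
                apply mul_le_mul_of_nonneg_right _ hδ
                have h5 : 0 ≤ |θ| * Q := by positivity
                calc (|θ| * Q) ^ m ≤ (1 + |θ| * Q) ^ m := pow_le_pow_left₀ h5 (by linarith) m
                  _ ≤ (1 + |θ| * Q) ^ (2 * s) := pow_le_pow_right₀ (by linarith) hm.le
      _ = 2 * s * (1 + |θ| * Q) ^ (2 * s) * δ := by
          rw [Finset.sum_const, card_range, nsmul_eq_mul]
          push_cast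
          ring
  have h4 := (abs_le.1 (hmom (2 * s) le_rfl)).2
  have hf0 : (0 : ℝ) < ((2 * s).factorial : ℝ) := by exact_mod_cast Nat.factorial_pos _
  have h5 : |θ| ^ (2 * s) / ((2 * s).factorial : ℝ) * M1 (2 * s) ≤
      |θ| ^ (2 * s) / ((2 * s).factorial : ℝ) * M2 (2 * s) + (1 + |θ| * Q) ^ (2 * s) * δ := by
    have h6 : |θ| ^ (2 * s) / ((2 * s).factorial : ℝ) * M1 (2 * s) ≤
        |θ| ^ (2 * s) / ((2 * s).factorial : ℝ) * (M2 (2 * s) + Q ^ (2 * s) * δ) :=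
      mul_le_mul_of_nonneg_left (by linarith) (by positivity)
    have h7 : |θ| ^ (2 * s) / ((2 * s).factorial : ℝ) * (Q ^ (2 * s) * δ) ≤ (1 + |θ| * Q) ^ (2 * s) * δ := by
      have hf1 : (1 : ℝ) ≤ ((2 * s).factorial : ℝ) := by exact_mod_cast Nat.one_le_iff_ne_zero.2 (Nat.factorial_ne_zero _)
      calc |θ| ^ (2 * s) / ((2 * s).factorial : ℝ) * (Q ^ (2 * s) * δ) ≤ |θ| ^ (2 * s) * (Q ^ (2 * s) * δ) := by
            apply mul_le_mul_of_nonneg_right (div_le_self (by positivity) hf1) (by positivity)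
        _ = (|θ| * Q) ^ (2 * s) * δ := by rw [mul_pow]; ring
        _ ≤ (1 + |θ| * Q) ^ (2 * s) * δ := by
            apply mul_le_mul_of_nonneg_right _ hδ
            exact pow_le_pow_left₀ (by positivity) (by linarith) _
    rw [mul_add] at h6
    linarith
  obtain ⟨ta, hta⟩ : ∃ ta : ℂ, ta = ∑ m ∈ range (2 * s), ((θ * I) ^ m / (m.factorial : ℂ)) * ((M1 m : ℝ) : ℂ) := ⟨_, rfl⟩
  obtain ⟨tb, htb⟩ : ∃ tb : ℂ, tb = ∑ m ∈ range (2 * s), ((θ * I) ^ m / (m.factorial : ℂ)) * ((M2 m : ℝ) : ℂ) := ⟨_, rfl⟩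
  rw [← hta] at h1 h3
  rw [← htb] at h2 h3
  calc ‖a - b‖ = ‖(a - ta) + (ta - tb) + (tb - b)‖ := by congr 1; ring
    _ ≤ ‖a - ta‖ + ‖ta - tb‖ + ‖tb - b‖ := norm_add₃_le
    _ = ‖a - ta‖ + ‖ta - tb‖ + ‖b - tb‖ := by rw [norm_sub_rev tb b]
    _ ≤ _ := by
        have e : (2 * (s : ℝ) + 1) * (1 + |θ| * Q) ^ (2 * s) * δ =
          2 * s * (1 + |θ| * Q) ^ (2 * s) * δ + (1 + |θ| * Q) ^ (2 * s) * δ := by ring
        rw [e]
        linarith

lemma norm_prod_sub (S : Finset ℕ) (a b : ℕ → ℂ) (ha : ∀ k ∈ S, ‖a k‖ ≤ 1) (hb : ∀ k ∈ S, ‖b k‖ ≤ 1) :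
    ‖∏ k ∈ S, a k - ∏ k ∈ S, b k‖ ≤ ∑ k ∈ S, ‖a k - b k‖ := by
  induction S using Finset.induction_on with
  | empty => simp
  | insert k S hk ih =>
    rw [prod_insert hk, prod_insert hk, sum_insert hk]
    have h1 := ih (fun l hl => ha l (mem_insert_of_mem hl)) (fun l hl => hb l (mem_insert_of_mem hl))
    have h2 : ‖∏ l ∈ S, b l‖ ≤ 1 := by
      rw [norm_prod]
      exact Finset.prod_le_one (fun l _ => norm_nonneg _) (fun l hl => hb l (mem_insert_of_mem hl))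
    have e : a k * ∏ l ∈ S, a l - b k * ∏ l ∈ S, b l = a k * (∏ l ∈ S, a l - ∏ l ∈ S, b l) + (a k - b k) * ∏ l ∈ S, b l := by
      ring
    rw [e]
    refine (norm_add_le _ _).trans ?_
    rw [norm_mul, norm_mul]
    have h3 := ha k (mem_insert_self _ _)
    have h4 : ‖a k‖ * ‖∏ l ∈ S, a l - ∏ l ∈ S, b l‖ ≤ 1 * ‖∏ l ∈ S, a l - ∏ l ∈ S, b l‖ :=
      mul_le_mul_of_nonneg_right h3 (norm_nonneg _)
    have h5 : ‖a k - b k‖ * ‖∏ l ∈ S, b l‖ ≤ ‖a k - b k‖ * 1 := mul_le_mul_of_nonneg_left h2 (norm_nonneg _)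
    linarith

/-- one factor -/
lemma one_factor (g : A → ℝ) (hg : ∀ x, |g x| ≤ 1) (h0 : ∑ x, g x = 0) [Nonempty A] (θ : ℝ) (hθ : |θ| ≤ 1) :
    ‖(∑ x : A, cexp ((θ * g x : ℝ) * I)) / Fintype.card A - (Real.exp (-(θ ^ 2 * vr g / 2)) : ℂ)‖ ≤
      (|θ| ^ 3 + θ ^ 4) * vr g := by
  have hA : (0 : ℝ) < Fintype.card A := by exact_mod_cast Fintype.card_pos
  have hAc : (Fintype.card A : ℂ) ≠ 0 := by exact_mod_cast Fintype.card_ne_zero
  have hv0 := vr_nonneg g
  have hv1 := vr_le_one g hg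
  have h1 : ‖(∑ x : A, cexp ((θ * g x : ℝ) * I)) / Fintype.card A - ((1 - θ ^ 2 * vr g / 2 : ℝ) : ℂ)‖ ≤ |θ| ^ 3 / 6 * vr g := by
    have e : ((1 - θ ^ 2 * vr g / 2 : ℝ) : ℂ) =
        (∑ x : A, ∑ m ∈ range 3, (((θ * g x : ℝ) : ℂ) * I) ^ m / (m.factorial : ℂ)) / Fintype.card A := by
      have h2 : ∀ x : A, ∑ m ∈ range 3, (((θ * g x : ℝ) : ℂ) * I) ^ m / (m.factorial : ℂ) =
          1 + θ * I * g x - θ ^ 2 / 2 * (g x ^ 2 : ℝ) := by
        intro x
        rw [Finset.sum_range_succ, Finset.sum_range_succ, Finset.sum_range_one]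
        simp only [pow_zero, pow_one, Nat.factorial_zero, Nat.factorial_one, Nat.factorial_two, Nat.cast_one, div_one]
        push_cast
        have : (((θ : ℂ) * g x) * I) ^ 2 = -(θ ^ 2 * g x ^ 2) := by
          rw [mul_pow, I_sq]
          ring
        rw [this]
        ring
      rw [Finset.sum_congr rfl (fun x _ => h2 x), Finset.sum_sub_distrib, Finset.sum_add_distrib, Finset.sum_const,
        card_univ, nsmul_eq_mul, mul_one, ← Finset.mul_sum, ← Finset.mul_sum, ← Complex.ofReal_sum, ← Complex.ofReal_sum, h0]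
      unfold vr
      push_cast
      field_simp
      ring
    rw [e, ← sub_div, ← Finset.sum_sub_distrib, norm_div, Complex.norm_natCast, div_le_iff₀ hA]
    refine (norm_sum_le _ _).trans ?_
    calc ∑ x : A, ‖cexp ((θ * g x : ℝ) * I) - ∑ m ∈ range 3, (((θ * g x : ℝ) : ℂ) * I) ^ m / (m.factorial : ℂ)‖ ≤
        ∑ x : A, |θ| ^ 3 / 6 * g x ^ 2 := by
          apply Finset.sum_le_sum
          intro x _
          refine (taylor_exp 3 (θ * g x)).trans ?_
          rw [abs_mul, mul_pow]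
          have h3 : |g x| ^ 3 ≤ g x ^ 2 := by
            rw [← sq_abs (g x)]
            have := hg x
            have := abs_nonneg (g x)
            nlinarith [sq_nonneg |g x|]
          have h4 : ((3).factorial : ℝ) = 6 := by norm_num [Nat.factorial]
          rw [h4]
          have h5 : 0 ≤ |θ| ^ 3 := by positivity
          calc |θ| ^ 3 * |g x| ^ 3 / 6 ≤ |θ| ^ 3 * g x ^ 2 / 6 := by gcongr
            _ = _ := by ring
      _ = |θ| ^ 3 / 6 * vr g * Fintype.card A := by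
          rw [← Finset.mul_sum]
          unfold vr
          field_simp
  have h2 : ‖((1 - θ ^ 2 * vr g / 2 : ℝ) : ℂ) - (Real.exp (-(θ ^ 2 * vr g / 2)) : ℂ)‖ ≤ θ ^ 4 * vr g / 4 := by
    rw [← Complex.ofReal_sub, Complex.norm_real, Real.norm_eq_abs, abs_sub_comm]
    have hu0 : 0 ≤ θ ^ 2 * vr g / 2 := by positivity
    have hθ2 : θ ^ 2 ≤ 1 := by
      rw [← sq_abs]
      have := abs_nonneg θ
      nlinarith
    have hu1 : θ ^ 2 * vr g / 2 ≤ 1 := by nlinarith [sq_nonneg θ]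
    have h3 := Real.abs_exp_sub_one_sub_id_le (x := -(θ ^ 2 * vr g / 2)) (by rw [abs_neg, abs_of_nonneg hu0]; exact hu1)
    have e : Real.exp (-(θ ^ 2 * vr g / 2)) - (1 - θ ^ 2 * vr g / 2) = Real.exp (-(θ ^ 2 * vr g / 2)) - 1 - -(θ ^ 2 * vr g / 2) := by
      ring
    rw [e]
    refine h3.trans ?_
    have h4 : vr g ^ 2 ≤ vr g := by nlinarith
    calc (-(θ ^ 2 * vr g / 2)) ^ 2 = θ ^ 4 * vr g ^ 2 / 4 := by ring
      _ ≤ θ ^ 4 * vr g / 4 := by
          have : 0 ≤ θ ^ 4 := by positivity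
          gcongr
  have e : (∑ x : A, cexp ((θ * g x : ℝ) * I)) / Fintype.card A - (Real.exp (-(θ ^ 2 * vr g / 2)) : ℂ) =
      ((∑ x : A, cexp ((θ * g x : ℝ) * I)) / Fintype.card A - ((1 - θ ^ 2 * vr g / 2 : ℝ) : ℂ)) +
        (((1 - θ ^ 2 * vr g / 2 : ℝ) : ℂ) - (Real.exp (-(θ ^ 2 * vr g / 2)) : ℂ)) := by ring
  rw [e]
  refine (norm_add_le _ _).trans ?_
  have h3 : 0 ≤ |θ| ^ 3 * vr g := by positivity
  have h4 : 0 ≤ θ ^ 4 * vr g := by positivity
  calc _ ≤ |θ| ^ 3 / 6 * vr g + θ ^ 4 * vr g / 4 := add_le_add h1 h2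
    _ ≤ (|θ| ^ 3 + θ ^ 4) * vr g := by nlinarith

/-- the characteristic function of the model is close to that of the normal law -/
lemma md_char (S : Finset ℕ) (a0 : A) (g : ℕ → A → ℝ) (hg : ∀ k x, |g k x| ≤ 1) (h0 : ∀ k, ∑ x, g k x = 0) (t V : ℝ)
    (hV : V = ∑ k ∈ S, vr (g k)) (hV0 : 0 < V) (ht : t ^ 2 ≤ V) :
    ‖(∑ r : S → A, cexp ((t / Real.sqrt V * ∑ k ∈ S, g k (md S a0 r k) : ℝ) * I)) / (Fintype.card (S → A)) -
      (Real.exp (-(t ^ 2 / 2)) : ℂ)‖ ≤ (|t| ^ 3 + t ^ 4) * (1 / Real.sqrt V + 1 / V) := by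
  haveI : Nonempty A := ⟨a0⟩
  have hs0 : 0 < Real.sqrt V := Real.sqrt_pos.2 hV0
  have hss : Real.sqrt V ^ 2 = V := Real.sq_sqrt hV0.le
  obtain ⟨θ, hθ⟩ : ∃ θ, θ = t / Real.sqrt V := ⟨_, rfl⟩
  have hθ2 : θ ^ 2 = t ^ 2 / V := by rw [hθ, div_pow, hss]
  have hθ1 : |θ| ≤ 1 := by
    rw [← sq_le_one_iff_abs_le_one, hθ2, div_le_one hV0]
    exact ht
  rw [← hθ]
  have h1 := md_exp S a0 g (θ * I)
  have e1 : ∑ r : S → A, cexp ((θ * ∑ k ∈ S, g k (md S a0 r k) : ℝ) * I) =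
      ∏ k ∈ S, ∑ x : A, cexp ((θ * g k x : ℝ) * I) := by
    refine Eq.trans ?_ (h1.trans ?_)
    · apply Finset.sum_congr rfl
      intro r _
      congr 1
      push_cast
      ring
    · apply Finset.prod_congr rfl
      intro k _
      apply Finset.sum_congr rfl
      intro x _
      congr 1
      push_cast
      ring
  have e2 : (∑ r : S → A, cexp ((θ * ∑ k ∈ S, g k (md S a0 r k) : ℝ) * I)) / (Fintype.card (S → A)) =
      ∏ k ∈ S, ((∑ x : A, cexp ((θ * g k x : ℝ) * I)) / Fintype.card A) := by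
    rw [e1, Finset.prod_div_distrib, Finset.prod_const, Fintype.card_fun, Fintype.card_coe]
    push_cast
    rfl
  have e3 : (Real.exp (-(t ^ 2 / 2)) : ℂ) = ∏ k ∈ S, (Real.exp (-(θ ^ 2 * vr (g k) / 2)) : ℂ) := by
    rw [← Complex.ofReal_prod, ← Real.exp_sum]
    congr 2
    rw [Finset.sum_neg_distrib, ← Finset.sum_div, ← Finset.mul_sum, ← hV, hθ2]
    field_simp
  rw [e2, e3]
  refine (norm_prod_sub S _ _ ?_ ?_).trans ?_
  · intro k _
    have hA : (0 : ℝ) < Fintype.card A := by exact_mod_cast Fintype.card_pos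
    rw [norm_div, Complex.norm_natCast, div_le_one hA]
    refine (norm_sum_le _ _).trans (le_of_eq ?_)
    rw [Finset.sum_congr rfl (fun x _ => Complex.norm_exp_ofReal_mul_I _), Finset.sum_const, card_univ, nsmul_eq_mul, mul_one]
  · intro k _
    rw [Complex.norm_real, Real.norm_eq_abs, abs_of_pos (Real.exp_pos _), Real.exp_le_one_iff]
    have := vr_nonneg (g k)
    have : 0 ≤ θ ^ 2 * vr (g k) / 2 := by positivity
    linarith
  · calc ∑ k ∈ S, ‖(∑ x : A, cexp ((θ * g k x : ℝ) * I)) / Fintype.card A - (Real.exp (-(θ ^ 2 * vr (g k) / 2)) : ℂ)‖ ≤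
        ∑ k ∈ S, (|θ| ^ 3 + θ ^ 4) * vr (g k) := Finset.sum_le_sum fun k _ => one_factor (g k) (hg k) (h0 k) θ hθ1
      _ = (|θ| ^ 3 + θ ^ 4) * V := by rw [← Finset.mul_sum, ← hV]
      _ = |t| ^ 3 / Real.sqrt V + t ^ 4 / V := by
          have h2 : |θ| ^ 3 = |t| ^ 3 / (Real.sqrt V * V) := by
            rw [hθ, abs_div, abs_of_pos hs0, div_pow]
            congr 1
            calc Real.sqrt V ^ 3 = Real.sqrt V * Real.sqrt V ^ 2 := by ring
              _ = _ := by rw [hss]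
          have h3 : θ ^ 4 = t ^ 4 / (V * V) := by
            calc θ ^ 4 = (θ ^ 2) ^ 2 := by ring
              _ = _ := by rw [hθ2, div_pow]; ring
          rw [h2, h3]
          field_simp
      _ ≤ (|t| ^ 3 + t ^ 4) * (1 / Real.sqrt V + 1 / V) := by
          have h4 : 0 ≤ |t| ^ 3 := by positivity
          have h5 : 0 ≤ t ^ 4 := by positivity
          have h6 : 0 ≤ 1 / Real.sqrt V := by positivity
          have h7 : 0 ≤ 1 / V := by positivity
          have e4 : |t| ^ 3 / Real.sqrt V = |t| ^ 3 * (1 / Real.sqrt V) := by ring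
          have e5 : t ^ 4 / V = t ^ 4 * (1 / V) := by ring
          rw [e4, e5]
          nlinarith [mul_nonneg h4 h7, mul_nonneg h5 h6]

end Pool.Agent.Q236.LP
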