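import Pool.Agent.Q236.LP.Char
import Pool.Agent.Q236.LP.Cdf

set_option autoImplicit false

/-!
# The central limit theorem and large deviations for almost independent variables
-/

namespace Pool.Agent.Q236.LP

open Finset Complex MeasureTheory

variable {Ω A : Type*} [Fintype A] [DecidableEq A]

/-- the law of `x` under the uniform distribution on `W` -/
noncomputable def law (W : Finset Ω) (x : Ω → ℝ) : Measure ℝ :=
  (W.card : ENNReal)⁻¹ • ∑ ω ∈ W, Measure.dirac (x ω)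

lemma law_prob (W : Finset Ω) (x : Ω → ℝ) (hW : W.Nonempty) : IsProbabilityMeasure (law W x) := by
  constructor
  unfold law
  rw [Measure.smul_apply, Measure.finsetSum_apply]
  simp only [measure_univ, Finset.sum_const, nsmul_eq_mul, mul_one, smul_eq_mul]
  apply ENNReal.inv_mul_cancel
  · exact_mod_cast hW.card_pos.ne'
  · exact ENNReal.natCast_ne_top _

open Classical in
lemma law_Iic (W : Finset Ω) (x : Ω → ℝ) (a : ℝ) :
    (law W x).real (Set.Iic a) = ((W.filter (fun ω => x ω ≤ a)).card : ℝ) / W.card := by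
  unfold law Measure.real
  rw [Measure.smul_apply, Measure.finsetSum_apply]
  have h1 : ∀ ω ∈ W, (Measure.dirac (x ω)) (Set.Iic a) = if x ω ≤ a then (1 : ENNReal) else 0 := by
    intro ω _
    rw [Measure.dirac_apply' _ measurableSet_Iic, Set.indicator_apply]
    rfl
  rw [Finset.sum_congr rfl h1, Finset.sum_boole, smul_eq_mul, ENNReal.toReal_mul, ENNReal.toReal_inv]
  simp only [ENNReal.toReal_natCast]
  rw [div_eq_inv_mul]

lemma law_char (W : Finset Ω) (x : Ω → ℝ) (t : ℝ) :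
    charFun (law W x) t = (∑ ω ∈ W, cexp ((t * x ω : ℝ) * I)) / W.card := by
  rw [charFun_apply_real]
  unfold law
  rw [integral_smul_measure, integral_finsetSum_measure]
  · have h1 : ∀ ω ∈ W, ∫ y : ℝ, cexp (t * y * I) ∂(Measure.dirac (x ω)) = cexp ((t * x ω : ℝ) * I) := by
      intro ω _
      rw [integral_dirac]
      push_cast
      rfl
    rw [Finset.sum_congr rfl h1, ENNReal.toReal_inv, ENNReal.toReal_natCast, div_eq_inv_mul]
    simp
  · intro ω _
    apply integrable_dirac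
    simp

/-- **The central limit theorem** -/
theorem clt (ε : ℝ) (hε : 0 < ε) : ∃ (s : ℕ) (V0 c : ℝ), 1 ≤ s ∧ 0 < c ∧ ∀ {Ω A : Type} [Fintype A] [DecidableEq A]
    (W : Finset Ω) (σ : Ω → ℕ → A) (S : Finset ℕ) (δ : ℝ), W.Nonempty → Ind W σ S (2 * s) δ → 0 ≤ δ →
    δ * (1 + S.card * Fintype.card A) ^ (2 * s) ≤ c → ∀ g : ℕ → A → ℝ, (∀ k x, |g k x| ≤ 1) → (∀ k, ∑ x, g k x = 0) →
    Nonempty A → ∀ V : ℝ, V = ∑ k ∈ S, vr (g k) → V0 ≤ V → ∀ x : ℝ,
    |(((open Classical in W.filter (fun ω => ∑ k ∈ S, g k (σ ω k) ≤ x * Real.sqrt V)).card : ℝ) / W.card) - Phi x| ≤ ε := by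
  classical
  obtain ⟨T, δ', hT, hδ', hcdf⟩ := cdf_close ε hε
  -- the number of moments
  obtain ⟨s, hs1, hs⟩ : ∃ s : ℕ, 1 ≤ s ∧ 4 * (T ^ 2 * Real.exp 1 / s) ^ s ≤ δ' / 3 := by
    have hδ12 : 0 < min (δ' / 12) 1 := by positivity
    obtain ⟨s, hs⟩ := exists_nat_gt (max 1 (T ^ 2 * Real.exp 1 / min (δ' / 12) 1))
    have hs1r : (1 : ℝ) < s := (le_max_left _ _).trans_lt hs
    have hs1 : 1 ≤ s := by exact_mod_cast hs1r.le
    refine ⟨s, hs1, ?_⟩
    have h1 : T ^ 2 * Real.exp 1 / s ≤ min (δ' / 12) 1 := by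
      have h2 := ((le_max_right (1 : ℝ) _).trans_lt hs).le
      rw [div_le_iff₀ hδ12] at h2
      rw [div_le_iff₀ (by linarith)]
      linarith
    have h0 : 0 ≤ T ^ 2 * Real.exp 1 / s := by positivity
    have h3 : (T ^ 2 * Real.exp 1 / s) ^ s ≤ T ^ 2 * Real.exp 1 / s := by
      calc (T ^ 2 * Real.exp 1 / s) ^ s ≤ (T ^ 2 * Real.exp 1 / s) ^ 1 :=
            pow_le_pow_of_le_one h0 (h1.trans (min_le_right _ _)) hs1
        _ = _ := pow_one _
    have := min_le_left (δ' / 12) (1 : ℝ)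
    linarith
  obtain ⟨V0, hV0⟩ : ∃ V0 : ℝ, V0 = max (max 1 (s : ℝ)) (max (T ^ 2) (((T ^ 3 + T ^ 4) * 6 / δ') ^ 2)) := ⟨_, rfl⟩
  obtain ⟨c, hc⟩ : ∃ c : ℝ, c = δ' / (3 * ((2 * s + 1) * (1 + T) ^ (2 * s))) := ⟨_, rfl⟩
  refine ⟨s, V0, c, hs1, by rw [hc]; positivity, ?_⟩
  intro Ω A _ _ W σ S δ hW hInd hδ hδc g hg h0 hA V hV hVV0 x
  obtain ⟨a0⟩ := hA
  have hV1 : 1 ≤ V := ((le_max_left _ _).trans (le_max_left _ _)).trans (by rw [← hV0]; exact hVV0)
  have hVs : (s : ℝ) ≤ V := ((le_max_right _ _).trans (le_max_left _ _)).trans (by rw [← hV0]; exact hVV0)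
  have hVT : T ^ 2 ≤ V := ((le_max_left _ _).trans (le_max_right _ _)).trans (by rw [← hV0]; exact hVV0)
  have hVδ : ((T ^ 3 + T ^ 4) * 6 / δ') ^ 2 ≤ V := ((le_max_right _ _).trans (le_max_right _ _)).trans (by rw [← hV0]; exact hVV0)
  have hVpos : 0 < V := by linarith
  have hsV0 : 0 < Real.sqrt V := Real.sqrt_pos.2 hVpos
  have hsV1 : 1 ≤ Real.sqrt V := Real.one_le_sqrt.2 hV1
  have hss : Real.sqrt V ^ 2 = V := Real.sq_sqrt hVpos.le
  obtain ⟨y, hy⟩ : ∃ y : Ω → ℝ, y = fun ω => (∑ k ∈ S, g k (σ ω k)) / Real.sqrt V := ⟨_, rfl⟩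
  have hres := hcdf (law W y) (law_prob W y hW) (by
    intro t ht
    rw [law_char]
    have e1 : (∑ ω ∈ W, cexp ((t * y ω : ℝ) * I)) / (W.card : ℂ) =
        (∑ ω ∈ W, cexp ((t / Real.sqrt V * ∑ k ∈ S, g k (σ ω k) : ℝ) * I)) / W.card := by
      congr 1
      apply Finset.sum_congr rfl
      intro ω _
      rw [hy]
      simp only
      congr 3
      ring
    rw [e1]
    have h1 := char_cmp W σ S s δ hW hInd hδ g hg a0 (t / Real.sqrt V)
    have h2 := md_char S a0 g hg h0 t V hV hVpos (by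
      rw [← sq_abs]
      exact (pow_le_pow_left₀ (abs_nonneg t) ht 2).trans hVT)
    have h3 := md_mom S a0 g hg h0 s (Real.sqrt (s / V)) (Real.sqrt_pos.2 (by
        have : (0 : ℝ) < s := by exact_mod_cast hs1
        positivity)) (by
        rw [Real.sqrt_le_one, div_le_one hVpos]
        exact hVs)
    obtain ⟨M, hM⟩ : ∃ M : ℝ, M = (∑ r : S → A, (∑ k ∈ S, g k (md S a0 r k)) ^ (2 * s)) / (Fintype.card (S → A)) := ⟨_, rfl⟩
    rw [← hM] at h1 h3
    rw [← hV] at h3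
    have hs0 : (0 : ℝ) < s := by exact_mod_cast hs1
    have hsq : Real.sqrt (s / V) ^ 2 = s / V := Real.sq_sqrt (by positivity)
    rw [pow_mul, hsq, div_mul_cancel₀ _ hVpos.ne'] at h3
    have hf0 : (0 : ℝ) < ((2 * s).factorial : ℝ) := by exact_mod_cast Nat.factorial_pos _
    -- the remainder
    have habs : |t / Real.sqrt V| = |t| / Real.sqrt V := by rw [abs_div, abs_of_pos hsV0]
    rw [habs] at h1
    have h4 : 2 * ((|t| / Real.sqrt V) ^ (2 * s) / ((2 * s).factorial : ℝ) * M) ≤ δ' / 3 := by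
      have e2 : (|t| / Real.sqrt V) ^ (2 * s) = (t ^ 2 / V) ^ s := by
        rw [pow_mul, div_pow, sq_abs, hss]
      rw [e2]
      have h5 : M ≤ 2 * ((2 * s).factorial : ℝ) * Real.exp s * (V / s) ^ s := by
        have h6 : (s / V : ℝ) ^ s * (V / s) ^ s = 1 := by
          rw [← mul_pow]
          have : (s / V : ℝ) * (V / s) = 1 := by field_simp
          rw [this, one_pow]
        calc M = (s / V : ℝ) ^ s * (V / s) ^ s * M := by rw [h6, one_mul]
          _ = ((s / V : ℝ) ^ s * M) * (V / s) ^ s := by ring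
          _ ≤ (2 * ((2 * s).factorial : ℝ) * Real.exp s) * (V / s) ^ s := mul_le_mul_of_nonneg_right h3 (by positivity)
      have h7 : (t ^ 2 / V) ^ s / ((2 * s).factorial : ℝ) * M ≤
          (t ^ 2 / V) ^ s / ((2 * s).factorial : ℝ) * (2 * ((2 * s).factorial : ℝ) * Real.exp s * (V / s) ^ s) :=
        mul_le_mul_of_nonneg_left h5 (by positivity)
      have e3 : (t ^ 2 / V) ^ s / ((2 * s).factorial : ℝ) * (2 * ((2 * s).factorial : ℝ) * Real.exp s * (V / s) ^ s) =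
          2 * (t ^ 2 * Real.exp 1 / s) ^ s := by
        have h8 : Real.exp s = Real.exp 1 ^ s := by rw [← Real.exp_nat_mul, mul_one]
        rw [h8]
        have h9 : (t ^ 2 / V) ^ s * Real.exp 1 ^ s * (V / s) ^ s = (t ^ 2 * Real.exp 1 / s) ^ s := by
          rw [← mul_pow, ← mul_pow]
          congr 1
          field_simp
        rw [← h9]
        field_simp
      rw [e3] at h7
      have h10 : (t ^ 2 * Real.exp 1 / s) ^ s ≤ (T ^ 2 * Real.exp 1 / s) ^ s := by
        apply pow_le_pow_left₀ (by positivity)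
        apply div_le_div_of_nonneg_right _ hs0.le
        apply mul_le_mul_of_nonneg_right _ (Real.exp_pos 1).le
        rw [← sq_abs]
        exact pow_le_pow_left₀ (abs_nonneg t) ht 2
      linarith
    have h5 : (2 * (s : ℝ) + 1) * (1 + |t| / Real.sqrt V * (S.card * Fintype.card A)) ^ (2 * s) * δ ≤ δ' / 3 := by
      have h6 : |t| / Real.sqrt V ≤ T := (div_le_self (abs_nonneg t) hsV1).trans ht
      have hN : (0 : ℝ) ≤ S.card * Fintype.card A := by positivity
      have h7 : 1 + |t| / Real.sqrt V * (S.card * Fintype.card A : ℝ) ≤ (1 + T) * (1 + S.card * Fintype.card A) := by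
        have := mul_le_mul_of_nonneg_right h6 hN
        nlinarith
      have h8 : (1 + |t| / Real.sqrt V * (S.card * Fintype.card A : ℝ)) ^ (2 * s) ≤
          (1 + T) ^ (2 * s) * (1 + S.card * Fintype.card A) ^ (2 * s) := by
        rw [← mul_pow]
        exact pow_le_pow_left₀ (by positivity) h7 _
      have h9 : 0 < (1 + T) ^ (2 * s) := by positivity
      calc (2 * (s : ℝ) + 1) * (1 + |t| / Real.sqrt V * (S.card * Fintype.card A)) ^ (2 * s) * δ ≤
          (2 * (s : ℝ) + 1) * ((1 + T) ^ (2 * s) * (1 + S.card * Fintype.card A) ^ (2 * s)) * δ := by gcongr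
        _ = ((2 * (s : ℝ) + 1) * (1 + T) ^ (2 * s)) * (δ * (1 + S.card * Fintype.card A) ^ (2 * s)) := by ring
        _ ≤ ((2 * (s : ℝ) + 1) * (1 + T) ^ (2 * s)) * c := mul_le_mul_of_nonneg_left hδc (by positivity)
        _ = δ' / 3 := by
            rw [hc]
            field_simp
    have h6 : (|t| ^ 3 + t ^ 4) * (1 / Real.sqrt V + 1 / V) ≤ δ' / 3 := by
      have h7 : 1 / V ≤ 1 / Real.sqrt V := by
        apply one_div_le_one_div_of_le hsV0
        nlinarith [hss, hsV1]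
      have h8 : |t| ^ 3 ≤ T ^ 3 := pow_le_pow_left₀ (abs_nonneg t) ht 3
      have h9 : t ^ 4 ≤ T ^ 4 := by
        have : t ^ 4 = |t| ^ 4 := by
          rw [show (4 : ℕ) = 2 * 2 by norm_num, pow_mul, pow_mul, sq_abs]
        rw [this]
        exact pow_le_pow_left₀ (abs_nonneg t) ht 4
      have h10 : (T ^ 3 + T ^ 4) * 6 / δ' ≤ Real.sqrt V := Real.le_sqrt_of_sq_le hVδ
      have h11 : (T ^ 3 + T ^ 4) * (2 * (1 / Real.sqrt V)) ≤ δ' / 3 := by
        rw [div_le_iff₀ hδ'] at h10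
        have e4 : (T ^ 3 + T ^ 4) * (2 * (1 / Real.sqrt V)) = (T ^ 3 + T ^ 4) * 2 / Real.sqrt V := by ring
        rw [e4, div_le_iff₀ hsV0]
        linarith
      calc (|t| ^ 3 + t ^ 4) * (1 / Real.sqrt V + 1 / V) ≤ (T ^ 3 + T ^ 4) * (1 / Real.sqrt V + 1 / Real.sqrt V) := by
            apply mul_le_mul (add_le_add h8 h9) (by linarith) (by positivity) (by positivity)
        _ = (T ^ 3 + T ^ 4) * (2 * (1 / Real.sqrt V)) := by ring
        _ ≤ δ' / 3 := h11
    obtain ⟨a, ha⟩ : ∃ a : ℂ, a = (∑ ω ∈ W, cexp ((t / Real.sqrt V * ∑ k ∈ S, g k (σ ω k) : ℝ) * I)) / W.card := ⟨_, rfl⟩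
    obtain ⟨b, hb⟩ : ∃ b : ℂ, b = (∑ r : S → A, cexp ((t / Real.sqrt V * ∑ k ∈ S, g k (md S a0 r k) : ℝ) * I)) /
      (Fintype.card (S → A)) := ⟨_, rfl⟩
    rw [← ha]
    rw [← ha, ← hb] at h1
    rw [← hb] at h2
    calc ‖a - (Real.exp (-(t ^ 2 / 2)) : ℂ)‖ = ‖(a - b) + (b - (Real.exp (-(t ^ 2 / 2)) : ℂ))‖ := by congr 1; ring
      _ ≤ ‖a - b‖ + ‖b - (Real.exp (-(t ^ 2 / 2)) : ℂ)‖ := norm_add_le _ _
      _ ≤ δ' := by linarith) x
  rw [law_Iic] at hres
  have e : W.filter (fun ω => y ω ≤ x) = W.filter (fun ω => ∑ k ∈ S, g k (σ ω k) ≤ x * Real.sqrt V) := by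
    apply filter_congr
    intro ω _
    rw [hy]
    simp only
    rw [div_le_iff₀ hsV0]
  rw [e] at hres
  convert! hres using 3

/-- **Large deviations** -/
theorem large_dev (s : ℕ) (hs : 1 ≤ s) (W : Finset Ω) (σ : Ω → ℕ → A) (S : Finset ℕ) (δ : ℝ) (hW : W.Nonempty)
    (h : Ind W σ S (2 * s) δ) (hδ : 0 ≤ δ) (g : ℕ → A → ℝ) (hg : ∀ k x, |g k x| ≤ 1) (h0 : ∀ k, ∑ x, g k x = 0)
    (a0 : A) (N : ℝ) (hN : (S.card : ℝ) ≤ N) (hNs : (s : ℝ) ≤ N) (B : ℝ) (hB : 0 < B) :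
    ((open Classical in (W.filter (fun ω => B * Real.sqrt N < |∑ k ∈ S, g k (σ ω k)|))).card : ℝ) ≤
      ((2 * (2 * s).factorial * Real.exp s + δ * (N * Fintype.card A) ^ (2 * s)) / B ^ (2 * s)) * W.card := by
  classical
  haveI : Nonempty A := ⟨a0⟩
  have hs0 : (0 : ℝ) < s := by exact_mod_cast hs
  have hN0 : 0 < N := by linarith
  have hN1 : 1 ≤ N := by
    have : (1 : ℝ) ≤ s := by exact_mod_cast hs
    linarith
  have hWc : (0 : ℝ) < W.card := by exact_mod_cast hW.card_pos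
  have hne : (univ : Finset (S → A)).Nonempty := ⟨fun _ => a0, mem_univ _⟩
  obtain ⟨M, hM⟩ : ∃ M : ℝ, M = (∑ r : S → A, (∑ k ∈ S, g k (md S a0 r k)) ^ (2 * s)) / (Fintype.card (S → A)) := ⟨_, rfl⟩
  have h1 := mom_cmp W σ univ (md S a0) S (2 * s) δ 0 hW hne h (ind_md S a0 _) (by linarith) g hg a0 (2 * s) le_rfl
  rw [add_zero] at h1
  have hcu : ((univ : Finset (S → A)).card) = Fintype.card (S → A) := card_univ
  rw [hcu, ← hM] at h1
  have h2 := md_mom S a0 g hg h0 s (Real.sqrt (s / N)) (Real.sqrt_pos.2 (by positivity)) (by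
    rw [Real.sqrt_le_one, div_le_one hN0]
    exact hNs)
  rw [← hM] at h2
  have hsq : Real.sqrt (s / N) ^ 2 = s / N := Real.sq_sqrt (by positivity)
  rw [pow_mul, hsq] at h2
  have hvr : ∑ k ∈ S, vr (g k) ≤ N := by
    calc ∑ k ∈ S, vr (g k) ≤ ∑ _k ∈ S, (1 : ℝ) := Finset.sum_le_sum fun k _ => vr_le_one (g k) (hg k)
      _ = S.card := by rw [Finset.sum_const, nsmul_eq_mul, mul_one]
      _ ≤ N := hN
  have h3 : Real.exp ((s / N) * ∑ k ∈ S, vr (g k)) ≤ Real.exp s := by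
    apply Real.exp_le_exp.2
    calc (s / N) * ∑ k ∈ S, vr (g k) ≤ (s / N) * N := mul_le_mul_of_nonneg_left hvr (by positivity)
      _ = s := by field_simp
  have hf0 : (0 : ℝ) < ((2 * s).factorial : ℝ) := by exact_mod_cast Nat.factorial_pos _
  have hM2 : M ≤ N ^ s * (2 * ((2 * s).factorial : ℝ) * Real.exp s) := by
    have h4 : (s / N : ℝ) ^ s * M ≤ 2 * ((2 * s).factorial : ℝ) * Real.exp s := by
      refine h2.trans ?_
      exact mul_le_mul_of_nonneg_left h3 (by positivity)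
    have h5 : (N / s : ℝ) ^ s ≤ N ^ s := by
      apply pow_le_pow_left₀ (by positivity)
      apply div_le_self hN0.le
      exact_mod_cast hs
    have h6 : (s / N : ℝ) ^ s * (N / s) ^ s = 1 := by
      rw [← mul_pow]
      have : (s / N : ℝ) * (N / s) = 1 := by field_simp
      rw [this, one_pow]
    calc M = (N / s : ℝ) ^ s * ((s / N : ℝ) ^ s * M) := by rw [← mul_assoc, mul_comm ((N / s : ℝ) ^ s), h6, one_mul]
      _ ≤ (N / s : ℝ) ^ s * (2 * ((2 * s).factorial : ℝ) * Real.exp s) := mul_le_mul_of_nonneg_left h4 (by positivity)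
      _ ≤ N ^ s * (2 * ((2 * s).factorial : ℝ) * Real.exp s) := mul_le_mul_of_nonneg_right h5 (by positivity)
  have h4 := (abs_le.1 h1).2
  have h5 : (∑ ω ∈ W, (∑ k ∈ S, g k (σ ω k)) ^ (2 * s)) / W.card ≤
      N ^ s * (2 * ((2 * s).factorial : ℝ) * Real.exp s) + (N * Fintype.card A) ^ (2 * s) * δ := by
    have h6 : ((S.card : ℝ) * Fintype.card A) ^ (2 * s) * δ ≤ (N * Fintype.card A) ^ (2 * s) * δ := by
      apply mul_le_mul_of_nonneg_right _ hδ
      apply pow_le_pow_left₀ (by positivity)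
      exact mul_le_mul_of_nonneg_right hN (Nat.cast_nonneg _)
    linarith
  rw [div_le_iff₀ hWc] at h5
  -- Markov
  obtain ⟨E, hE⟩ : ∃ E, E = W.filter (fun ω => B * Real.sqrt N < |∑ k ∈ S, g k (σ ω k)|) := ⟨_, rfl⟩
  have hcv : ((open Classical in (W.filter (fun ω => B * Real.sqrt N < |∑ k ∈ S, g k (σ ω k)|))).card : ℝ) = E.card := by
    rw [hE]
  rw [hcv]
  have h6 : (E.card : ℝ) * (B * Real.sqrt N) ^ (2 * s) ≤ ∑ ω ∈ W, (∑ k ∈ S, g k (σ ω k)) ^ (2 * s) := by
    calc (E.card : ℝ) * (B * Real.sqrt N) ^ (2 * s) = ∑ _ω ∈ E, (B * Real.sqrt N) ^ (2 * s) := by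
          rw [Finset.sum_const, nsmul_eq_mul]
      _ ≤ ∑ ω ∈ E, (∑ k ∈ S, g k (σ ω k)) ^ (2 * s) := by
          apply Finset.sum_le_sum
          intro ω hω
          rw [hE, mem_filter] at hω
          have h7 : (∑ k ∈ S, g k (σ ω k)) ^ (2 * s) = |∑ k ∈ S, g k (σ ω k)| ^ (2 * s) := by
            rw [pow_mul, pow_mul |∑ k ∈ S, g k (σ ω k)|, sq_abs]
          rw [h7]
          exact pow_le_pow_left₀ (by positivity) hω.2.le _
      _ ≤ ∑ ω ∈ W, (∑ k ∈ S, g k (σ ω k)) ^ (2 * s) := by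
          apply Finset.sum_le_sum_of_subset_of_nonneg
          · rw [hE]
            exact filter_subset _ _
          · intro ω _ _
            rw [pow_mul]
            positivity
  have h7 : (B * Real.sqrt N) ^ (2 * s) = B ^ (2 * s) * N ^ s := by
    rw [mul_pow]
    congr 1
    rw [pow_mul, Real.sq_sqrt hN0.le]
  rw [h7] at h6
  have hBs : 0 < B ^ (2 * s) := by positivity
  have hNs0 : 0 < N ^ s := by positivity
  have hNs1 : 1 ≤ N ^ s := one_le_pow₀ hN1
  rw [div_mul_eq_mul_div, le_div_iff₀ hBs]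
  have h8 : (E.card : ℝ) * B ^ (2 * s) * N ^ s ≤ (N ^ s * (2 * ((2 * s).factorial : ℝ) * Real.exp s) +
      (N * Fintype.card A) ^ (2 * s) * δ) * W.card := by
    calc (E.card : ℝ) * B ^ (2 * s) * N ^ s = E.card * (B ^ (2 * s) * N ^ s) := by ring
      _ ≤ _ := h6.trans h5
  have h9 : (N * Fintype.card A) ^ (2 * s) * δ ≤ N ^ s * ((N * Fintype.card A) ^ (2 * s) * δ) :=
    le_mul_of_one_le_left (by positivity) hNs1
  have h10 : (E.card : ℝ) * B ^ (2 * s) * N ^ s ≤ (2 * ((2 * s).factorial : ℝ) * Real.exp s +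
      δ * (N * Fintype.card A) ^ (2 * s)) * W.card * N ^ s := by
    refine h8.trans ?_
    calc (N ^ s * (2 * ((2 * s).factorial : ℝ) * Real.exp s) + (N * Fintype.card A) ^ (2 * s) * δ) * W.card ≤
        (N ^ s * (2 * ((2 * s).factorial : ℝ) * Real.exp s) + N ^ s * ((N * Fintype.card A) ^ (2 * s) * δ)) * W.card := by
          apply mul_le_mul_of_nonneg_right _ hWc.le
          linarith
      _ = _ := by ring
  exact le_of_mul_le_mul_right h10 hNs0

end Pool.Agent.Q236.LP
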