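import Pool.Agent.Q236.LP.Line
import Pool.Agent.Q236.RP.Box

set_option autoImplicit false

/-!
# Correlations of the Liouville function at the values of a random polynomial plus an arbitrary function
-/

namespace Pool.Agent.Q236.LP

open Finset Filter
open Pool.Agent.Y868.TE (lio)
open Pool.Agent.Y868.TA (cs)
open Pool.Agent.Q236.RP (ev_log_ge ev_pow_log Box mem_Box card_Box ev ev_add shift_sum sv sv_sum vp_coeff_le)

variable {d : ℕ}

/-- sizes -/
structure LZ (C X : ℕ) (f : ℕ → ℤ) (Z : Fin d → ℤ) (Y : Fin d → ℕ) (S : Finset ℕ) : Prop where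
  side : ∀ i, (X : ℝ) / Real.log X ^ C ≤ Y i
  pts : ∀ k ∈ S, (k : ℝ) ≤ Real.log X ^ C
  up : ∀ k ∈ S, ∀ c ∈ Box Z Y, |(ev f c k : ℝ)| ≤ X * Real.log X ^ C

lemma LZ.mono {C X : ℕ} {f : ℕ → ℤ} {Z : Fin d → ℤ} {Y : Fin d → ℕ} {S T : Finset ℕ} (h : LZ C X f Z Y S)
    (hT : T ⊆ S) : LZ C X f Z Y T :=
  ⟨h.side, fun k hk => h.pts k (hT hk), fun k hk => h.up k (hT hk)⟩

lemma shift_sum' (Z : Fin d → ℤ) (Y : Fin d → ℕ) (hY : ∀ i, 1 ≤ Y i) (v : Fin d → ℤ) (F : (Fin d → ℤ) → ℝ)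
    (hF : ∀ c, |F c| ≤ 1) :
    |∑ c ∈ Box Z Y, F (c + v) - ∑ c ∈ Box Z Y, F c| ≤ 2 * ((∑ i, |(v i : ℝ)| / Y i) * (Box Z Y).card) := by
  have h1 := shift_sum Z Y hY v (fun c => (F c + 1) / 2) (fun c => by linarith [(abs_le.1 (hF c)).1])
    (fun c => by linarith [(abs_le.1 (hF c)).2])
  have e : ∀ g : (Fin d → ℤ) → ℝ, ∑ c ∈ Box Z Y, (g c + 1) / 2 = (∑ c ∈ Box Z Y, g c) / 2 + (Box Z Y).card / 2 := by
    intro g
    rw [← Finset.sum_div, Finset.sum_add_distrib, Finset.sum_const, nsmul_eq_mul, mul_one, add_div]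
  rw [e, e F] at h1
  have e2 : (∑ c ∈ Box Z Y, F (c + v)) / 2 + ((Box Z Y).card : ℝ) / 2 - ((∑ c ∈ Box Z Y, F c) / 2 + ((Box Z Y).card : ℝ) / 2) =
      (∑ c ∈ Box Z Y, F (c + v) - ∑ c ∈ Box Z Y, F c) / 2 := by ring
  rw [e2, abs_div, abs_of_pos (by norm_num : (0 : ℝ) < 2)] at h1
  rw [div_le_iff₀ (by norm_num)] at h1
  linarith

/-- **The correlations** -/
theorem corr_lz (d A C : ℕ) : ∀ᶠ X : ℕ in atTop, ∀ (f : ℕ → ℤ) (Z : Fin d → ℤ) (Y : Fin d → ℕ) (J : Finset ℕ),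
    J.Nonempty → J.card ≤ d → LZ C X f Z Y J →
    |∑ c ∈ Box Z Y, ∏ k ∈ J, lz (ev f c k)| ≤ (Box Z Y).card / Real.log X ^ A := by
  obtain ⟨U1, hU1⟩ : ∃ U1, U1 = C * d + C + A + 4 := ⟨_, rfl⟩
  obtain ⟨U, hU⟩ : ∃ U, U = U1 + A + 1 := ⟨_, rfl⟩
  filter_upwards [cs_small (C * d) (C + 1) U, ev_log_ge 16, ev_log_ge (2 ^ d), ev_log_ge (4 * d + 2), ev_pow_log (U1 + 1)] with X hcs hL16
    hL2d hLd4 hP f Z Y J hJ hJd hsz
  obtain ⟨L, hL⟩ : ∃ L, L = Real.log (X : ℝ) := ⟨_, rfl⟩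
  rw [← hL] at hcs hL16 hL2d hLd4 hP ⊢
  have side := hsz.side
  have pts := hsz.pts
  have up := hsz.up
  rw [← hL] at side pts up
  have hL1 : 1 ≤ L := by linarith
  have hL0 : 0 < L := by linarith
  have hX1 : (1 : ℝ) ≤ X := (one_le_pow₀ hL1).trans hP
  have hX0 : (0 : ℝ) < X := by linarith
  have hLp : ∀ j : ℕ, 0 < L ^ j := fun j => by positivity
  have hLp1 : ∀ j : ℕ, 1 ≤ L ^ j := fun j => one_le_pow₀ hL1
  have hLL : ∀ {i j : ℕ}, i ≤ j → L ^ i ≤ L ^ j := fun h => pow_le_pow_right₀ hL1 h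
  obtain ⟨k0, hk0⟩ := hJ
  obtain ⟨J', hJ'⟩ : ∃ J', J' = J.erase k0 := ⟨_, rfl⟩
  have hJ'd : J'.card < d := by
    rw [hJ', card_erase_of_mem hk0]
    have := card_pos.2 ⟨k0, hk0⟩
    omega
  have hd1 : 1 ≤ d := by omega
  have hYpos : ∀ i, 1 ≤ Y i := by
    intro i
    have h1 := side i
    have h2 : (0 : ℝ) < X / L ^ C := by positivity
    have : (0 : ℝ) < Y i := lt_of_lt_of_le h2 h1
    exact_mod_cast this
  -- the number of shifts
  obtain ⟨N, hN⟩ : ∃ N, N = ⌊(X : ℝ) / L ^ U1⌋₊ := ⟨_, rfl⟩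
  have hXU : 1 ≤ (X : ℝ) / L ^ U1 := by
    rw [one_le_div (hLp _)]
    exact (hLL (by omega)).trans hP
  have hN1 : 1 ≤ N := by
    rw [hN]
    exact Nat.floor_pos.2 hXU
  have hNle : (N : ℝ) ≤ X / L ^ U1 := by rw [hN]; exact Nat.floor_le (by positivity)
  have hNge : (X : ℝ) / L ^ U1 ≤ 2 * N := by
    have h1 := Nat.lt_floor_add_one ((X : ℝ) / L ^ U1)
    rw [← hN] at h1
    have : (1 : ℝ) ≤ N := by exact_mod_cast hN1
    linarith
  have hN0 : (0 : ℝ) < N := by exact_mod_cast hN1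
  -- the direction
  obtain ⟨D, hD⟩ : ∃ D : ℤ, D = ∏ s ∈ J', ((k0 : ℤ) - s) := ⟨_, rfl⟩
  have hD0 : D ≠ 0 := by
    rw [hD, Finset.prod_ne_zero_iff]
    intro s hs
    rw [hJ', mem_erase] at hs
    have := hs.1
    omega
  have hDabs : |(D : ℝ)| ≤ L ^ (C * d) := by
    rw [hD]
    push_cast
    rw [Finset.abs_prod]
    calc ∏ s ∈ J', |(k0 : ℝ) - s| ≤ ∏ _s ∈ J', L ^ C := by
          apply Finset.prod_le_prod (fun s _ => abs_nonneg _)
          intro s hs
          rw [hJ', mem_erase] at hs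
          have h1 := pts k0 hk0
          have h2 := pts s hs.2
          rw [abs_le]
          have : (0 : ℝ) ≤ s := Nat.cast_nonneg s
          have : (0 : ℝ) ≤ k0 := Nat.cast_nonneg k0
          constructor <;> linarith
      _ = L ^ (C * J'.card) := by rw [Finset.prod_const, ← pow_mul]
      _ ≤ L ^ (C * d) := hLL (Nat.mul_le_mul_left C hJ'd.le)
  have hDnat : ((D.natAbs : ℕ) : ℝ) ≤ L ^ (C * d) := by
    rw [Nat.cast_natAbs]
    push_cast
    exact hDabs
  have hDnat1 : 1 ≤ D.natAbs := by omega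
  -- the shift vectors
  have hcoef : ∀ (t : ℕ) (i : Fin d), |(sv d 1 J' t i : ℝ)| ≤ t * L ^ (C * d + 1) := by
    intro t i
    unfold sv
    push_cast
    rw [mul_one, abs_mul, abs_of_nonneg (Nat.cast_nonneg t : (0 : ℝ) ≤ t)]
    apply mul_le_mul_of_nonneg_left _ (Nat.cast_nonneg t)
    obtain ⟨K, hK⟩ : ∃ K, K = ⌊L ^ C⌋₊ := ⟨_, rfl⟩
    have hKL : (K : ℝ) ≤ L ^ C := by rw [hK]; exact Nat.floor_le (hLp _).le
    have h1 := vp_coeff_le K J' (by
      intro s hs
      rw [hJ', mem_erase] at hs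
      rw [hK]
      exact Nat.le_floor (pts s hs.2)) i
    have h2 : |((Pool.Agent.Q236.RP.vp J').coeff i : ℝ)| ≤ ((K : ℝ) + 1) ^ J'.card := by exact_mod_cast h1
    refine h2.trans ?_
    calc ((K : ℝ) + 1) ^ J'.card ≤ (2 * L ^ C) ^ J'.card := by
          apply pow_le_pow_left₀ (by positivity)
          have := hLp1 C
          linarith
      _ ≤ (2 * L ^ C) ^ d := by
          apply pow_le_pow_right₀ _ hJ'd.le
          have := hLp1 C
          linarith
      _ = 2 ^ d * L ^ (C * d) := by rw [mul_pow, ← pow_mul]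
      _ ≤ L * L ^ (C * d) := mul_le_mul_of_nonneg_right hL2d (hLp _).le
      _ = L ^ (C * d + 1) := by ring
  have herr : ∀ t : ℕ, t < N → ∑ i, |(sv d 1 J' t i : ℝ)| / Y i ≤ d / L ^ (A + 3) := by
    intro t ht
    calc ∑ i, |(sv d 1 J' t i : ℝ)| / Y i ≤ ∑ _i : Fin d, (1 : ℝ) / L ^ (A + 3) := by
          apply Finset.sum_le_sum
          intro i _
          have hYi : (0 : ℝ) < Y i := by exact_mod_cast hYpos i
          rw [div_le_div_iff₀ hYi (hLp _), one_mul]
          have ht' : (t : ℝ) ≤ X / L ^ U1 := by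
            have : (t : ℝ) ≤ N := by exact_mod_cast ht.le
            exact this.trans hNle
          calc |(sv d 1 J' t i : ℝ)| * L ^ (A + 3) ≤ (t * L ^ (C * d + 1)) * L ^ (A + 3) :=
                mul_le_mul_of_nonneg_right (hcoef t i) (hLp _).le
            _ ≤ ((X / L ^ U1) * L ^ (C * d + 1)) * L ^ (A + 3) := by gcongr
            _ = X / L ^ C := by
                have e : L ^ U1 = L ^ (C * d + 1) * L ^ (A + 3) * L ^ C := by rw [hU1]; ring
                rw [e]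
                field_simp
            _ ≤ Y i := side i
      _ = d / L ^ (A + 3) := by
          rw [Finset.sum_const, card_univ, Fintype.card_fin, nsmul_eq_mul]
          ring
  -- the sums over the lines
  obtain ⟨F, hF⟩ : ∃ F : (Fin d → ℤ) → ℝ, F = fun c => ∏ k ∈ J, lz (ev f c k) := ⟨_, rfl⟩
  have hF1 : ∀ c, |F c| ≤ 1 := by
    intro c
    rw [hF]
    simp only
    rw [Finset.abs_prod]
    exact Finset.prod_le_one (fun k _ => abs_nonneg _) (fun k _ => lz_abs _)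
  have hline : ∀ c ∈ Box Z Y, |∑ t ∈ range N, F (c + sv d 1 J' t)| ≤ 4 * (X / L ^ U) := by
    intro c hc
    have hval : ∀ t : ℕ, ∀ k : ℕ, ev f (c + sv d 1 J' t) k = ev f c k + t * ∏ s ∈ J', ((k : ℤ) - s) := by
      intro t k
      rw [ev_add, sv_sum 1 J' hJ'd t k, mul_one]
    have hprod : ∀ t : ℕ, F (c + sv d 1 J' t) = (∏ k ∈ J', lz (ev f c k)) * lz (ev f c k0 + t * D) := by
      intro t
      rw [hF]
      simp only
      rw [← Finset.mul_prod_erase J _ hk0, mul_comm, ← hJ']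
      congr 1
      · apply Finset.prod_congr rfl
        intro k hk
        rw [hval, Finset.prod_eq_zero hk (sub_self _), mul_zero, add_zero]
      · rw [hval, ← hD]
    rw [Finset.sum_congr rfl (fun t _ => hprod t), ← Finset.mul_sum, abs_mul]
    have h1 : |∏ k ∈ J', lz (ev f c k)| ≤ 1 := by
      rw [Finset.abs_prod]
      exact Finset.prod_le_one (fun k _ => abs_nonneg _) (fun k _ => lz_abs _)
    have h2 := line_sum (X * L ^ (C + 1)) (X / L ^ U) D hD0 (fun r W hW => hcs D.natAbs r W hDnat1 hDnat hW)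
      (by positivity) (ev f c k0) N (by
        intro t ht
        push_cast
        have h3 := up k0 hk0 c hc
        have ht' : (t : ℝ) ≤ X / L ^ U1 := by
          have : (t : ℝ) ≤ N := by exact_mod_cast ht.le
          exact this.trans hNle
        have h4 : |(t : ℝ) * D| ≤ X := by
          rw [abs_mul, abs_of_nonneg (Nat.cast_nonneg t : (0 : ℝ) ≤ t)]
          calc (t : ℝ) * |(D : ℝ)| ≤ (X / L ^ U1) * L ^ (C * d) := by gcongr
            _ ≤ (X / L ^ U1) * L ^ U1 := by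
                apply mul_le_mul_of_nonneg_left _ (by positivity)
                exact hLL (by omega)
            _ = X := by field_simp
        calc |(ev f c k0 : ℝ) + t * D| ≤ |(ev f c k0 : ℝ)| + |(t : ℝ) * D| := abs_add_le _ _
          _ ≤ X * L ^ C + X := add_le_add h3 h4
          _ ≤ X * L ^ C + X * L ^ C := by
              have := hLp1 C
              nlinarith
          _ = X * (2 * L ^ C) := by ring
          _ ≤ X * (L * L ^ C) := by
              apply mul_le_mul_of_nonneg_left _ hX0.le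
              apply mul_le_mul_of_nonneg_right _ (hLp _).le
              linarith
          _ = X * L ^ (C + 1) := by ring)
    calc |∏ k ∈ J', lz (ev f c k)| * |∑ t ∈ range N, lz (ev f c k0 + t * D)| ≤
        1 * |∑ t ∈ range N, lz (ev f c k0 + t * D)| := mul_le_mul_of_nonneg_right h1 (abs_nonneg _)
      _ ≤ 4 * (X / L ^ U) := by rw [one_mul]; exact h2
  -- conclusion
  obtain ⟨b, hb⟩ : ∃ b : ℝ, b = (Box Z Y).card := ⟨_, rfl⟩
  have hb0 : 0 ≤ b := by rw [hb]; exact Nat.cast_nonneg _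
  have h1 : |∑ t ∈ range N, ∑ c ∈ Box Z Y, F (c + sv d 1 J' t)| ≤ b * (4 * (X / L ^ U)) := by
    rw [Finset.sum_comm]
    refine (Finset.abs_sum_le_sum_abs _ _).trans ?_
    refine (Finset.sum_le_sum hline).trans (le_of_eq ?_)
    rw [Finset.sum_const, nsmul_eq_mul, hb]
  have h2 : |∑ t ∈ range N, ∑ c ∈ Box Z Y, F (c + sv d 1 J' t) - N * ∑ c ∈ Box Z Y, F c| ≤ N * (2 * (d / L ^ (A + 3) * b)) := by
    have e : (N : ℝ) * ∑ c ∈ Box Z Y, F c = ∑ _t ∈ range N, ∑ c ∈ Box Z Y, F c := by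
      rw [Finset.sum_const, card_range, nsmul_eq_mul]
    rw [e, ← Finset.sum_sub_distrib]
    refine (Finset.abs_sum_le_sum_abs _ _).trans ?_
    calc ∑ t ∈ range N, |∑ c ∈ Box Z Y, F (c + sv d 1 J' t) - ∑ c ∈ Box Z Y, F c| ≤
          ∑ _t ∈ range N, 2 * (d / L ^ (A + 3) * b) := by
          apply Finset.sum_le_sum
          intro t ht
          rw [mem_range] at ht
          refine (shift_sum' Z Y hYpos (sv d 1 J' t) F hF1).trans ?_
          rw [← hb]
          have := herr t ht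
          nlinarith [mul_le_mul_of_nonneg_right this hb0]
      _ = N * (2 * (d / L ^ (A + 3) * b)) := by rw [Finset.sum_const, card_range, nsmul_eq_mul]
  have h3 : (N : ℝ) * |∑ c ∈ Box Z Y, F c| ≤ b * (4 * (X / L ^ U)) + N * (2 * (d / L ^ (A + 3) * b)) := by
    rw [← abs_of_nonneg hN0.le, ← abs_mul, abs_of_nonneg hN0.le]
    have e : (N : ℝ) * ∑ c ∈ Box Z Y, F c = ∑ t ∈ range N, ∑ c ∈ Box Z Y, F (c + sv d 1 J' t) -
        (∑ t ∈ range N, ∑ c ∈ Box Z Y, F (c + sv d 1 J' t) - N * ∑ c ∈ Box Z Y, F c) := by ring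
    rw [e]
    refine (abs_sub _ _).trans ?_
    exact add_le_add h1 h2
  have h4 : (X : ℝ) / L ^ U ≤ 2 * N / L ^ (A + 1) := by
    have e : L ^ U = L ^ U1 * L ^ (A + 1) := by rw [hU]; ring
    rw [e, ← div_div]
    exact div_le_div_of_nonneg_right hNge (hLp _).le
  have h5 : b * (4 * (X / L ^ U)) ≤ N * (b * (8 / L ^ (A + 1))) := by
    calc b * (4 * (X / L ^ U)) ≤ b * (4 * (2 * N / L ^ (A + 1))) := by gcongr
      _ = N * (b * (8 / L ^ (A + 1))) := by ring
  have h6 : (N : ℝ) * |∑ c ∈ Box Z Y, F c| ≤ N * (b * (8 / L ^ (A + 1)) + 2 * (d / L ^ (A + 3) * b)) := by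
    rw [mul_add]
    linarith
  have h7 := le_of_mul_le_mul_left h6 hN0
  have h8 : ∑ c ∈ Box Z Y, F c = ∑ c ∈ Box Z Y, ∏ k ∈ J, lz (ev f c k) := by rw [hF]
  rw [h8] at h7
  refine h7.trans ?_
  rw [← hb]
  have h9 : (8 : ℝ) / L ^ (A + 1) ≤ 1 / 2 / L ^ A := by
    rw [pow_succ, div_le_div_iff₀ (by positivity) (hLp _)]
    have := hLp A
    nlinarith
  have h10 : 2 * ((d : ℝ) / L ^ (A + 3)) ≤ 1 / 2 / L ^ A := by
    have h11 : (d : ℝ) / L ^ (A + 3) ≤ d / L ^ (A + 1) :=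
      div_le_div_of_nonneg_left (Nat.cast_nonneg d) (hLp _) (hLL (by omega))
    have h12 : 2 * ((d : ℝ) / L ^ (A + 1)) ≤ 1 / 2 / L ^ A := by
      rw [pow_succ, mul_div_assoc', div_le_div_iff₀ (by positivity) (hLp _)]
      have := hLp A
      nlinarith
    linarith
  calc b * (8 / L ^ (A + 1)) + 2 * (d / L ^ (A + 3) * b) = b * (8 / L ^ (A + 1) + 2 * (d / L ^ (A + 3))) := by ring
    _ ≤ b * (1 / 2 / L ^ A + 1 / 2 / L ^ A) := by gcongr
    _ = b / L ^ A := by ring

open Classical in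
/-- the zeros -/
lemma zero_card (f : ℕ → ℤ) (Z : Fin d → ℤ) (Y : Fin d → ℕ) (hY : ∀ i, 1 ≤ Y i) (hd : 0 < d) (k : ℕ) :
    (((Box Z Y).filter (fun c => ev f c k = 0)).card : ℝ) ≤ (Box Z Y).card / Y ⟨0, hd⟩ := by
  obtain ⟨o, ho⟩ : ∃ o : Fin d, o = ⟨0, hd⟩ := ⟨_, rfl⟩
  rw [← ho]
  have h1 : ((Box Z Y).filter (fun c => ev f c k = 0)).card ≤
      (Fintype.piFinset (fun l => if l = o then ({Z l} : Finset ℤ) else Ioc (Z l) (Z l + Y l))).card := by
    apply card_le_card_of_injOn (fun c => Function.update c o (Z o))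
    · intro c hc
      rw [mem_coe, mem_filter] at hc
      rw [mem_coe, Fintype.mem_piFinset]
      intro l
      by_cases hl : l = o
      · rw [if_pos hl]
        subst hl
        simp
      · rw [if_neg hl]
        simp only
        rw [Function.update_of_ne hl, mem_Ioc]
        exact (mem_Box Z Y c).1 hc.1 l
    · intro c hc c' hc' hcc
      rw [mem_coe, mem_filter] at hc hc'
      simp only at hcc
      have hne : ∀ l, l ≠ o → c l = c' l := by
        intro l hl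
        have := congrFun hcc l
        rwa [Function.update_of_ne hl, Function.update_of_ne hl] at this
      have h2 : c o = c' o := by
        have h3 : ev f c k = ev f c' k := by rw [hc.2, hc'.2]
        unfold ev at h3
        rw [← Finset.add_sum_erase univ _ (mem_univ o), ← Finset.add_sum_erase univ (fun i => c' i * (k : ℤ) ^ (i : ℕ)) (mem_univ o)] at h3
        have h4 : ∑ x ∈ univ.erase o, c x * (k : ℤ) ^ (x : ℕ) = ∑ x ∈ univ.erase o, c' x * (k : ℤ) ^ (x : ℕ) := by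
          apply Finset.sum_congr rfl
          intro x hx
          rw [hne x (ne_of_mem_erase hx)]
        rw [h4] at h3
        have h5 : (k : ℤ) ^ (o : ℕ) = 1 := by rw [ho]; simp
        rw [h5] at h3
        linarith
      ext l
      by_cases hl : l = o
      · rw [hl]
        exact h2
      · exact hne l hl
  rw [Fintype.card_piFinset, ← Finset.mul_prod_erase univ _ (mem_univ o), if_pos rfl, card_singleton, one_mul] at h1
  have h3 : ∏ l ∈ univ.erase o, (if l = o then ({Z l} : Finset ℤ) else Ioc (Z l) (Z l + Y l)).card = ∏ l ∈ univ.erase o, Y l := by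
    apply Finset.prod_congr rfl
    intro l hl
    rw [if_neg (Finset.ne_of_mem_erase hl), Int.card_Ioc]
    simp
  rw [h3] at h1
  have hYo : (0 : ℝ) < Y o := by exact_mod_cast hY o
  rw [card_Box, ← Finset.mul_prod_erase univ _ (mem_univ o), le_div_iff₀ hYo]
  push_cast
  have : (((Box Z Y).filter (fun c => ev f c k = 0)).card : ℝ) ≤ ∏ l ∈ univ.erase o, (Y l : ℝ) := by exact_mod_cast h1
  nlinarith

end Pool.Agent.Q236.LP
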