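import Pool.Agent.Q236.LP.Pat

set_option autoImplicit false

/-!
# The central limit theorem and square root cancellation for the Liouville function at random polynomials
-/

namespace Pool.Agent.Q236.LP

open Finset Filter
open Pool.Agent.Q236.RP (ev_log_ge ev_pow_log Box mem_Box card_Box ev)

variable {n d : ℕ}

lemma boxL_nonempty (Z : Fin n → Fin d → ℤ) (Y : Fin n → Fin d → ℕ) (hY : ∀ i j, 1 ≤ Y i j) : (BoxL Z Y).Nonempty := by
  refine ⟨fun i j => Z i j + 1, ?_⟩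
  unfold BoxL
  rw [Fintype.mem_piFinset]
  intro i
  rw [mem_Box]
  intro j
  have : (1 : ℤ) ≤ Y i j := by exact_mod_cast hY i j
  exact ⟨by omega, by omega⟩

lemma card_S_le (C X : ℕ) (S : Finset ℕ) (hL : 1 ≤ Real.log (X : ℝ)) (hS : ∀ k ∈ S, (k : ℝ) ≤ Real.log X ^ C) :
    (S.card : ℝ) ≤ 2 * Real.log X ^ C := by
  have h1 : S ⊆ range (⌊Real.log (X : ℝ) ^ C⌋₊ + 1) := by
    intro k hk
    rw [mem_range]
    have := Nat.le_floor (hS k hk)
    omega
  have h2 := card_le_card h1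
  rw [card_range] at h2
  have h3 : (S.card : ℝ) ≤ (⌊Real.log (X : ℝ) ^ C⌋₊ : ℝ) + 1 := by exact_mod_cast h2
  have h4 : (⌊Real.log (X : ℝ) ^ C⌋₊ : ℝ) ≤ Real.log X ^ C := Nat.floor_le (by positivity)
  have h5 : (1 : ℝ) ≤ Real.log X ^ C := one_le_pow₀ hL
  linarith

open Classical in
/-- **The central limit theorem** -/
theorem lp_clt (n : ℕ) (ε : ℝ) (hε : 0 < ε) : ∃ (d0 : ℕ) (V0 : ℝ), ∀ C d : ℕ, d0 ≤ d → ∀ᶠ X : ℕ in atTop,
    ∀ (f : Fin n → ℕ → ℤ) (Z : Fin n → Fin d → ℤ) (Y : Fin n → Fin d → ℕ) (S : Finset ℕ),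
    (∀ i j, (X : ℝ) / Real.log X ^ C ≤ Y i j) → (∀ k ∈ S, (k : ℝ) ≤ Real.log X ^ C) →
    (∀ i, LZ C X (f i) (Z i) (Y i) S) → ∀ g : ℕ → (Fin n → Bool) → ℝ,
    (∀ k x, |g k x| ≤ 1) → (∀ k, ∑ x, g k x = 0) → ∀ V : ℝ, V = ∑ k ∈ S, vr (g k) → V0 ≤ V → ∀ x : ℝ,
    |((((BoxL Z Y).filter (fun c => ∑ k ∈ S, g k (sgs f c k) ≤ x * Real.sqrt V)).card : ℝ) / (BoxL Z Y).card) - Phi x| ≤ ε := by
  obtain ⟨s, V0, c, hs1, hc, h⟩ := clt ε hε
  refine ⟨2 * s, V0, ?_⟩
  intro C d hd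
  obtain ⟨A, hA⟩ : ∃ A, A = 2 * s * (C + 1) + 1 := ⟨_, rfl⟩
  filter_upwards [ind_sgs n d A C, ev_log_ge 1, ev_log_ge (1 + 2 * 2 ^ n), ev_log_ge (1 / c), ev_pow_log (C + 1)] with X hX hL1 hLn
    hLc hP f Z Y S side hS hsz g hg h0 V hV hV0 x
  have hind := hX f Z Y S hsz
  obtain ⟨L, hL⟩ : ∃ L, L = Real.log (X : ℝ) := ⟨_, rfl⟩
  have hcardS := card_S_le C X S hL1 hS
  rw [← hL] at hL1 hLn hLc hP side hind hcardS
  have hL0 : 0 < L := by linarith
  have hLp : ∀ j : ℕ, 0 < L ^ j := fun j => by positivity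
  have hX0 : (0 : ℝ) < X := lt_of_lt_of_le (hLp _) hP
  have hYpos : ∀ i j, 1 ≤ Y i j := by
    intro i j
    have h2 : (0 : ℝ) < X / L ^ C := by positivity
    have : (0 : ℝ) < Y i j := lt_of_lt_of_le h2 (side i j)
    exact_mod_cast this
  have hmain := h (BoxL Z Y) (sgs f) S (1 / L ^ A) (boxL_nonempty Z Y hYpos) (hind.mono (Subset.refl S) hd) (by positivity)
    (by
      have hcA : (Fintype.card (Fin n → Bool) : ℝ) = 2 ^ n := by
        rw [Fintype.card_fun, Fintype.card_bool, Fintype.card_fin]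
        push_cast
        rfl
      rw [hcA]
      have h1 : 1 + (S.card : ℝ) * 2 ^ n ≤ L ^ (C + 1) := by
        have h2 : (1 : ℝ) ≤ L ^ C := one_le_pow₀ hL1
        have h3 : (0 : ℝ) < 2 ^ n := by positivity
        calc 1 + (S.card : ℝ) * 2 ^ n ≤ L ^ C + 2 * L ^ C * 2 ^ n := by
              have := mul_le_mul_of_nonneg_right hcardS h3.le
              linarith
          _ = (1 + 2 * 2 ^ n) * L ^ C := by ring
          _ ≤ L * L ^ C := mul_le_mul_of_nonneg_right hLn (hLp _).le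
          _ = L ^ (C + 1) := by ring
      have h2 : (1 + (S.card : ℝ) * 2 ^ n) ^ (2 * s) ≤ (L ^ (C + 1)) ^ (2 * s) := pow_le_pow_left₀ (by positivity) h1 _
      calc 1 / L ^ A * (1 + (S.card : ℝ) * 2 ^ n) ^ (2 * s) ≤ 1 / L ^ A * (L ^ (C + 1)) ^ (2 * s) :=
            mul_le_mul_of_nonneg_left h2 (by positivity)
        _ = 1 / L := by
            have e : L ^ A = (L ^ (C + 1)) ^ (2 * s) * L := by rw [hA]; ring
            rw [e]
            field_simp
        _ ≤ c := by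
            rw [div_le_iff₀ hc] at hLc
            rw [div_le_iff₀ hL0]
            linarith)
    g hg h0 ⟨fun _ => false⟩ V hV hV0 x
  convert! hmain using 3

/-- the arithmetic progression `a, a + q, …, a + (l - 1) q` -/
def AP (a q l : ℕ) : Finset ℕ := (range l).image (fun j => a + q * j)

lemma AP_card (a q l : ℕ) : (AP a q l).card ≤ l := by
  unfold AP
  refine card_image_le.trans ?_
  rw [card_range]

open Classical in
/-- **Square root cancellation in all progressions** -/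
theorem lp_dev (n B D : ℕ) (η : ℝ) (hη : 0 < η) : ∃ d0 : ℕ, ∀ C d : ℕ, d0 ≤ d → ∀ᶠ X : ℕ in atTop,
    ∀ (f : Fin n → ℕ → ℤ) (Z : Fin n → Fin d → ℤ) (Y : Fin n → Fin d → ℕ) (S : Finset ℕ),
    (∀ i j, (X : ℝ) / Real.log X ^ C ≤ Y i j) → (∀ k ∈ S, (k : ℝ) ≤ Real.log X ^ C) →
    (∀ i, LZ C X (f i) (Z i) (Y i) S) → ∀ g : ℕ → (Fin n → Bool) → ℝ,
    (∀ k x, |g k x| ≤ 1) → (∀ k, ∑ x, g k x = 0) →
    (((BoxL Z Y).filter (fun c => ∃ a q l : ℕ, (a : ℝ) ≤ Real.log X ^ D ∧ (q : ℝ) ≤ Real.log X ^ D ∧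
      (l : ℝ) ≤ 2 * Real.log X ^ D ∧ Real.log X ^ η * Real.sqrt l < |∑ k ∈ S ∩ AP a q l, g k (sgs f c k)|)).card : ℝ) ≤
      (BoxL Z Y).card / Real.log X ^ B := by
  obtain ⟨s, hs⟩ : ∃ s : ℕ, (B + 3 * D + 4) / (2 * η) < s := exists_nat_gt _
  have hs1 : 1 ≤ s := by
    have : (0 : ℝ) < s := lt_of_le_of_lt (by positivity) hs
    exact_mod_cast this
  refine ⟨2 * s, ?_⟩
  intro C d hd
  obtain ⟨A, hA⟩ : ∃ A, A = 2 * s * (D + 1) := ⟨_, rfl⟩
  obtain ⟨R, hR⟩ : ∃ R : ℝ, R = 2 * ((2 * s).factorial : ℝ) * Real.exp s + 1 := ⟨_, rfl⟩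
  have hη2 : ∀ᶠ X : ℕ in atTop, (s : ℝ) ≤ Real.log X ^ (2 * η) := by
    have h1 := ((tendsto_rpow_atTop (show 0 < 2 * η by positivity)).comp (Real.tendsto_log_atTop.comp
      (tendsto_natCast_atTop_atTop (R := ℝ)))).eventually_ge_atTop (s : ℝ)
    exact h1
  filter_upwards [ind_sgs n d A C, ev_log_ge 1, ev_log_ge (2 * 2 ^ n), ev_log_ge (R * 27), ev_pow_log (C + 1), hη2] with X hX hL1 hLn
    hLR hP hLs f Z Y S side hS hsz g hg h0
  have hind := hX f Z Y S hsz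
  obtain ⟨L, hL⟩ : ∃ L, L = Real.log (X : ℝ) := ⟨_, rfl⟩
  rw [← hL] at hL1 hLn hLR hP side hind hLs ⊢
  have hL0 : 0 < L := by linarith
  have hLp : ∀ j : ℕ, 0 < L ^ j := fun j => by positivity
  have hLp1 : ∀ j : ℕ, 1 ≤ L ^ j := fun j => one_le_pow₀ hL1
  have hX0 : (0 : ℝ) < X := lt_of_lt_of_le (hLp _) hP
  have hYpos : ∀ i j, 1 ≤ Y i j := by
    intro i j
    have h2 : (0 : ℝ) < X / L ^ C := by positivity
    have : (0 : ℝ) < Y i j := lt_of_lt_of_le h2 (side i j)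
    exact_mod_cast this
  obtain ⟨W, hW⟩ : ∃ W, W = BoxL Z Y := ⟨_, rfl⟩
  have hWne : W.Nonempty := by rw [hW]; exact boxL_nonempty Z Y hYpos
  have hW0 : (0 : ℝ) ≤ W.card := Nat.cast_nonneg _
  rw [← hW] at hind ⊢
  obtain ⟨K, hK⟩ : ∃ K, K = ⌊2 * L ^ D⌋₊ + 1 := ⟨_, rfl⟩
  have hKle : (K : ℝ) ≤ 3 * L ^ D := by
    rw [hK]
    push_cast
    have := Nat.floor_le (show 0 ≤ 2 * L ^ D by positivity)
    have := hLp1 D
    linarith
  have hcA : (Fintype.card (Fin n → Bool) : ℝ) = 2 ^ n := by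
    rw [Fintype.card_fun, Fintype.card_bool, Fintype.card_fin]
    push_cast
    rfl
  -- one progression
  have hone : ∀ a q l : ℕ, (l : ℝ) ≤ 2 * L ^ D →
      ((W.filter (fun c => L ^ η * Real.sqrt l < |∑ k ∈ S ∩ AP a q l, g k (sgs f c k)|)).card : ℝ) ≤
      R / L ^ (B + 3 * D + 4) * W.card := by
    intro a q l hl
    by_cases hls : (s : ℝ) ≤ l
    · have h1 := large_dev s hs1 W (sgs f) (S ∩ AP a q l) (1 / L ^ A) hWne
        (hind.mono inter_subset_left hd) (by positivity) g hg h0 (fun _ => false) l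
        (by exact_mod_cast (card_le_card inter_subset_right).trans (AP_card a q l)) hls (L ^ η) (Real.rpow_pos_of_pos hL0 η)
      have h2 : (1 / L ^ A) * ((l : ℝ) * Fintype.card (Fin n → Bool)) ^ (2 * s) ≤ 1 := by
        rw [hcA]
        have h3 : (l : ℝ) * 2 ^ n ≤ L ^ (D + 1) := by
          calc (l : ℝ) * 2 ^ n ≤ (2 * L ^ D) * 2 ^ n := mul_le_mul_of_nonneg_right hl (by positivity)
            _ = (2 * 2 ^ n) * L ^ D := by ring
            _ ≤ L * L ^ D := mul_le_mul_of_nonneg_right hLn (hLp _).le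
            _ = L ^ (D + 1) := by ring
        have h4 : ((l : ℝ) * 2 ^ n) ^ (2 * s) ≤ (L ^ (D + 1)) ^ (2 * s) := pow_le_pow_left₀ (by positivity) h3 _
        have h5 : L ^ A = (L ^ (D + 1)) ^ (2 * s) := by rw [hA]; ring
        rw [one_div, inv_mul_le_iff₀ (hLp A), mul_one, h5]
        exact h4
      have h3 : (L ^ η) ^ (2 * s) = L ^ (η * (2 * s : ℕ)) := by
        rw [← Real.rpow_natCast, ← Real.rpow_mul hL0.le]
      have h4 : L ^ (B + 3 * D + 4) ≤ (L ^ η) ^ (2 * s) := by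
        rw [h3, ← Real.rpow_natCast L (B + 3 * D + 4)]
        apply Real.rpow_le_rpow_of_exponent_le hL1
        rw [div_lt_iff₀ (by positivity)] at hs
        push_cast
        linarith
      have h5 : (2 * ((2 * s).factorial : ℝ) * Real.exp s + (1 / L ^ A) * ((l : ℝ) * Fintype.card (Fin n → Bool)) ^ (2 * s)) /
          (L ^ η) ^ (2 * s) ≤ R / L ^ (B + 3 * D + 4) := by
        apply div_le_div₀ (by rw [hR]; positivity) _ (hLp _) h4
        rw [hR]
        linarith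
      refine le_trans ?_ (mul_le_mul_of_nonneg_right h5 hW0)
      refine le_trans (le_of_eq ?_) h1
      congr!
    · push Not at hls
      have h1 : W.filter (fun c => L ^ η * Real.sqrt l < |∑ k ∈ S ∩ AP a q l, g k (sgs f c k)|) = ∅ := by
        rw [filter_eq_empty_iff]
        intro c _
        push Not
        have h2 : |∑ k ∈ S ∩ AP a q l, g k (sgs f c k)| ≤ l := by
          refine (Finset.abs_sum_le_sum_abs _ _).trans ?_
          calc ∑ k ∈ S ∩ AP a q l, |g k (sgs f c k)| ≤ ∑ _k ∈ S ∩ AP a q l, (1 : ℝ) := Finset.sum_le_sum fun k _ => hg k _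
            _ = (S ∩ AP a q l).card := by rw [Finset.sum_const, nsmul_eq_mul, mul_one]
            _ ≤ l := by exact_mod_cast (card_le_card inter_subset_right).trans (AP_card a q l)
        refine h2.trans ?_
        have h3 : Real.sqrt l ≤ L ^ η := by
          rw [Real.sqrt_le_left (by positivity), ← Real.rpow_natCast (L ^ η) 2, ← Real.rpow_mul hL0.le]
          have e : η * ((2 : ℕ) : ℝ) = 2 * η := by push_cast; ring
          rw [e]
          linarith
        calc (l : ℝ) = Real.sqrt l * Real.sqrt l := (Real.mul_self_sqrt (Nat.cast_nonneg l)).symm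
          _ ≤ L ^ η * Real.sqrt l := mul_le_mul_of_nonneg_right h3 (Real.sqrt_nonneg _)
      rw [h1, card_empty, Nat.cast_zero]
      have : 0 ≤ R := by rw [hR]; positivity
      positivity
  -- all progressions
  have hsub : W.filter (fun c => ∃ a q l : ℕ, (a : ℝ) ≤ L ^ D ∧ (q : ℝ) ≤ L ^ D ∧
      (l : ℝ) ≤ 2 * L ^ D ∧ L ^ η * Real.sqrt l < |∑ k ∈ S ∩ AP a q l, g k (sgs f c k)|) ⊆
      (range K ×ˢ (range K ×ˢ range K)).biUnion (fun t => if (t.2.2 : ℝ) ≤ 2 * L ^ D then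
        W.filter (fun c => L ^ η * Real.sqrt t.2.2 < |∑ k ∈ S ∩ AP t.1 t.2.1 t.2.2, g k (sgs f c k)|) else ∅) := by
    intro c hc
    rw [mem_filter] at hc
    obtain ⟨hcW, a, q, l, ha, hq, hl, hbig⟩ := hc
    have hlt : ∀ m : ℕ, (m : ℝ) ≤ 2 * L ^ D → m < K := by
      intro m hm
      rw [hK]
      have := Nat.le_floor hm
      omega
    rw [mem_biUnion]
    have hLC := hLp D
    refine ⟨(a, (q, l)), ?_, ?_⟩
    · rw [mem_product, mem_product, mem_range, mem_range, mem_range]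
      exact ⟨hlt a (by linarith), hlt q (by linarith), hlt l hl⟩
    · rw [if_pos hl, mem_filter]
      exact ⟨hcW, hbig⟩
  have h1 := (card_le_card hsub).trans card_biUnion_le
  have h2 : ((∑ t ∈ range K ×ˢ (range K ×ˢ range K), (if (t.2.2 : ℝ) ≤ 2 * L ^ D then
        W.filter (fun c => L ^ η * Real.sqrt t.2.2 < |∑ k ∈ S ∩ AP t.1 t.2.1 t.2.2, g k (sgs f c k)|) else ∅).card : ℕ) : ℝ) ≤
      (K : ℝ) ^ 3 * (R / L ^ (B + 3 * D + 4) * W.card) := by
    push_cast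
    calc ∑ t ∈ range K ×ˢ (range K ×ˢ range K), (((if (t.2.2 : ℝ) ≤ 2 * L ^ D then
        W.filter (fun c => L ^ η * Real.sqrt t.2.2 < |∑ k ∈ S ∩ AP t.1 t.2.1 t.2.2, g k (sgs f c k)|) else ∅).card : ℕ) : ℝ) ≤
        ∑ _t ∈ range K ×ˢ (range K ×ˢ range K), R / L ^ (B + 3 * D + 4) * W.card := by
          apply Finset.sum_le_sum
          intro t _
          split_ifs with ht
          · exact hone t.1 t.2.1 t.2.2 ht
          · rw [card_empty, Nat.cast_zero]
            have : 0 ≤ R := by rw [hR]; positivity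
            positivity
      _ = _ := by
          rw [Finset.sum_const, nsmul_eq_mul, card_product, card_product, card_range]
          push_cast
          ring
  have h3 : (K : ℝ) ^ 3 * (R / L ^ (B + 3 * D + 4) * W.card) ≤ W.card / L ^ B := by
    have h4 : (K : ℝ) ^ 3 ≤ 27 * L ^ (3 * D) := by
      calc (K : ℝ) ^ 3 ≤ (3 * L ^ D) ^ 3 := pow_le_pow_left₀ (Nat.cast_nonneg K) hKle 3
        _ = 27 * L ^ (3 * D) := by ring
    have hR0 : 0 ≤ R := by rw [hR]; positivity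
    calc (K : ℝ) ^ 3 * (R / L ^ (B + 3 * D + 4) * W.card) ≤ 27 * L ^ (3 * D) * (R / L ^ (B + 3 * D + 4) * W.card) :=
          mul_le_mul_of_nonneg_right h4 (by positivity)
      _ = (R * 27) / L ^ 4 * (W.card / L ^ B) := by
          have e : L ^ (B + 3 * D + 4) = L ^ B * L ^ (3 * D) * L ^ 4 := by ring
          rw [e]
          field_simp
      _ ≤ 1 * (W.card / L ^ B) := by
          apply mul_le_mul_of_nonneg_right _ (by positivity)
          rw [div_le_one (hLp 4)]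
          refine hLR.trans ?_
          calc L = L ^ 1 := (pow_one L).symm
            _ ≤ L ^ 4 := pow_le_pow_right₀ hL1 (by norm_num)
      _ = _ := one_mul _
  exact le_trans (by exact_mod_cast h1) (h2.trans h3)

end Pool.Agent.Q236.LP
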