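import Pool.Agent.Y868.TE.L8
import Pool.Agent.Q236.RP.Short

set_option autoImplicit false

/-!
# The Liouville function on short progressions of integers
-/

namespace Pool.Agent.Q236.LP

open Finset Filter
open Pool.Agent.Y868.TE (lio lio_abs lio_zero bv_all)
open Pool.Agent.Y868.TA (cs)
open Pool.Agent.Q236.RP (ev_log_ge ev_pow_log)

lemma cs_trivial (Y k a : ℕ) : |cs lio Y k a| ≤ Y := by
  unfold cs
  refine (Finset.abs_sum_le_sum_abs _ _).trans ?_
  calc ∑ n ∈ (Icc 1 Y).filter (fun n => n ≡ a [MOD k]), |lio n| ≤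
        ∑ _n ∈ (Icc 1 Y).filter (fun n => n ≡ a [MOD k]), (1 : ℝ) := Finset.sum_le_sum fun n _ => lio_abs n
    _ = (((Icc 1 Y).filter (fun n => n ≡ a [MOD k])).card : ℝ) := by rw [Finset.sum_const, nsmul_eq_mul, mul_one]
    _ ≤ Y := by
        have := card_filter_le (Icc 1 Y) (fun n => n ≡ a [MOD k])
        rw [Nat.card_Icc, Nat.add_sub_cancel] at this
        exact_mod_cast this

/-- one small modulus -/
theorem cs_small (A C U : ℕ) : ∀ᶠ X : ℕ in atTop, ∀ D a Y : ℕ, 1 ≤ D → (D : ℝ) ≤ Real.log X ^ A →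
    (Y : ℝ) ≤ X * Real.log X ^ C → |cs lio Y D a| ≤ X / Real.log X ^ U := by
  obtain ⟨V, hV⟩ : ∃ V, V = U + C + 1 := ⟨_, rfl⟩
  obtain ⟨B, Y0, h⟩ := bv_all V
  filter_upwards [ev_log_ge (2 ^ V), ev_log_ge (2 ^ (4 * B)), ev_log_ge 1, ev_pow_log (4 * A + 4 * B + 1),
    ev_pow_log (2 * U), ev_pow_log C, (tendsto_natCast_atTop_atTop (R := ℝ)).eventually_ge_atTop ((Y0 : ℝ) ^ 2)] with X
      hL1 hL2 hL hP1 hP2 hP3 hX D a Y hD hDA hY
  obtain ⟨L, hLd⟩ : ∃ L, L = Real.log (X : ℝ) := ⟨_, rfl⟩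
  rw [← hLd] at hL1 hL2 hL hP1 hP2 hP3 hDA hY ⊢
  have hL0 : 0 < L := by linarith
  have hX1 : (1 : ℝ) ≤ X := (one_le_pow₀ hL).trans hP2
  have hX0 : (0 : ℝ) < X := by linarith
  have hs0 : 0 < Real.sqrt X := Real.sqrt_pos.2 hX0
  have hss : Real.sqrt X * Real.sqrt X = X := Real.mul_self_sqrt hX0.le
  by_cases hcase : (Y : ℝ) < Real.sqrt X
  · refine (cs_trivial Y D a).trans (hcase.le.trans ?_)
    rw [le_div_iff₀ (by positivity)]
    have h1 : L ^ U ≤ Real.sqrt X := by
      apply Real.le_sqrt_of_sq_le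
      rw [← pow_mul, mul_comm]
      exact hP2
    calc Real.sqrt X * L ^ U ≤ Real.sqrt X * Real.sqrt X := mul_le_mul_of_nonneg_left h1 hs0.le
      _ = X := hss
  · push Not at hcase
    have hY0 : (0 : ℝ) < Y := lt_of_lt_of_le hs0 hcase
    have hYY0 : Y0 ≤ Y := by
      have h1 : (Y0 : ℝ) ≤ Real.sqrt X := Real.le_sqrt_of_sq_le hX
      exact_mod_cast h1.trans hcase
    have hlY1 : L / 2 ≤ Real.log Y := by
      have h1 := Real.log_le_log hs0 hcase
      rw [Real.log_sqrt hX0.le, ← hLd] at h1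
      exact h1
    have hlY2 : Real.log Y ≤ 2 * L := by
      have h1 := Real.log_le_log hY0 hY
      rw [Real.log_mul hX0.ne' (by positivity), ← hLd] at h1
      have h2 : Real.log (L ^ C) ≤ L := by
        rw [hLd]
        rw [hLd] at hP3
        exact Real.log_le_log (by rw [← hLd]; positivity) hP3
      linarith
    have hK : (D : ℝ) ≤ Real.sqrt Y / Real.log Y ^ B := by
      have hlY0 : 0 < Real.log Y := by linarith
      rw [le_div_iff₀ (by positivity)]
      have h1 : (D : ℝ) * Real.log Y ^ B ≤ L ^ A * (2 * L) ^ B := by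
        apply mul_le_mul hDA (pow_le_pow_left₀ hlY0.le hlY2 B) (by positivity) (by positivity)
      refine h1.trans ?_
      apply Real.le_sqrt_of_sq_le
      refine le_trans ?_ hcase
      apply Real.le_sqrt_of_sq_le
      refine le_trans ?_ hP1
      calc ((L ^ A * (2 * L) ^ B) ^ 2) ^ 2 = 2 ^ (4 * B) * L ^ (4 * A + 4 * B) := by
            rw [mul_pow 2 L B]
            ring
        _ ≤ L * L ^ (4 * A + 4 * B) := mul_le_mul_of_nonneg_right hL2 (by positivity)
        _ = L ^ (4 * A + 4 * B + 1) := by ring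
    have h1 := h Y hYY0 D hK (fun _ => a)
    have h2 : |cs lio Y D a| ≤ Y / Real.log Y ^ V := by
      refine le_trans ?_ h1
      exact Finset.single_le_sum (f := fun k => |cs lio Y k a|) (fun k _ => abs_nonneg _) (mem_Icc.2 ⟨hD, le_rfl⟩)
    refine h2.trans ?_
    have hL2' : 0 < L / 2 := by linarith
    calc (Y : ℝ) / Real.log Y ^ V ≤ (X * L ^ C) / (L / 2) ^ V :=
          div_le_div₀ (by positivity) hY (by positivity) (pow_le_pow_left₀ hL2'.le hlY1 V)
      _ = X / L ^ U * (2 ^ V / L) := by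
          have hLV : L ^ V = L ^ U * L ^ C * L := by rw [hV]; ring
          rw [div_pow, hLV]
          field_simp
      _ ≤ X / L ^ U * 1 := by
          apply mul_le_mul_of_nonneg_left _ (by positivity)
          rw [div_le_one hL0]
          exact hL1
      _ = X / L ^ U := mul_one _

/-- the Liouville function on the integers -/
noncomputable def lz (z : ℤ) : ℝ := lio z.natAbs

lemma lz_abs (z : ℤ) : |lz z| ≤ 1 := lio_abs _

lemma lz_neg (z : ℤ) : lz (-z) = lz z := by
  unfold lz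
  rw [Int.natAbs_neg]

lemma lz_zero : lz 0 = 0 := by
  unfold lz
  rw [Int.natAbs_zero]
  exact lio_zero

/-- the positive part -/
lemma pos_part (D : ℕ) (hD : 1 ≤ D) (M b : ℝ) (hb : ∀ r Y : ℕ, (Y : ℝ) ≤ M → |cs lio Y D r| ≤ b) (hM0 : 0 ≤ M)
    (a : ℤ) (N : ℕ) (hM : ∀ t : ℕ, t < N → ((a + t * D : ℤ) : ℝ) ≤ M) :
    |∑ t ∈ range N, (if 0 < a + (t : ℤ) * D then lio (a + (t : ℤ) * D).toNat else 0)| ≤ 2 * b := by
  have hb0 : 0 ≤ b := (abs_nonneg _).trans (hb 0 0 (by simpa using hM0))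
  have hDz : (1 : ℤ) ≤ D := by exact_mod_cast hD
  rcases Nat.eq_zero_or_pos N with hN | hN
  · rw [hN]
    simp
    exact hb0
  obtain ⟨e, he⟩ : ∃ e : ℤ, e = a + ((N - 1 : ℕ) : ℤ) * D := ⟨_, rfl⟩
  have hNz : ((N - 1 : ℕ) : ℤ) = N - 1 := by omega
  rw [hNz] at he
  have hle : ∀ t : ℕ, t < N → a + (t : ℤ) * D ≤ e := by
    intro t ht
    rw [he]
    have : (t : ℤ) ≤ N - 1 := by omega
    nlinarith
  obtain ⟨u, hu⟩ : ∃ u, u = (a - 1).toNat := ⟨_, rfl⟩
  obtain ⟨v, hv⟩ : ∃ v, v = e.toNat := ⟨_, rfl⟩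
  have hae : a ≤ e := by
    have := hle 0 hN
    simpa using this
  have huv : u ≤ v := by
    rw [hu, hv]
    exact Int.toNat_le_toNat (by linarith)
  have hvM : (v : ℝ) ≤ M := by
    rcases le_or_gt e 0 with h0 | h0
    · have : v = 0 := by rw [hv]; exact Int.toNat_of_nonpos h0
      rw [this]
      simpa using hM0
    · have h1 := hM (N - 1) (by omega)
      have h2 : ((v : ℤ) : ℝ) = (e : ℝ) := by rw [hv, Int.toNat_of_nonneg h0.le]
      have h3 : (v : ℝ) = (e : ℝ) := by exact_mod_cast h2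
      rw [h3]
      refine le_trans (le_of_eq ?_) h1
      rw [hNz, he]
  have huM : (u : ℝ) ≤ M := le_trans (by exact_mod_cast huv) hvM
  obtain ⟨r, hr⟩ : ∃ r, r = (a % D).toNat := ⟨_, rfl⟩
  have hrz : (r : ℤ) = a % D := by rw [hr, Int.toNat_of_nonneg (Int.emod_nonneg _ (by omega))]
  have hsum : ∑ t ∈ range N, (if 0 < a + (t : ℤ) * D then lio (a + (t : ℤ) * D).toNat else 0) =
      ∑ n ∈ (Ioc u v).filter (fun n => n ≡ r [MOD D]), lio n := by
    rw [← Finset.sum_filter]
    apply Finset.sum_bij (fun (t : ℕ) _ => (a + (t : ℤ) * D).toNat)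
    · intro t ht
      rw [mem_filter, mem_range] at ht
      have h1 := hle t ht.1
      rw [mem_filter, mem_Ioc]
      have ht0 : (0 : ℤ) ≤ t * D := by positivity
      refine ⟨⟨?_, ?_⟩, ?_⟩
      · rw [hu]
        omega
      · rw [hv]
        omega
      · rw [← Int.natCast_modEq_iff, Int.toNat_of_nonneg ht.2.le, hrz]
        unfold Int.ModEq
        rw [Int.add_mul_emod_self_right, Int.emod_emod_of_dvd _ (dvd_refl _)]
    · intro t ht s hs hts
      rw [mem_filter, mem_range] at ht hs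
      have h1 : a + (t : ℤ) * D = a + (s : ℤ) * D := by
        have h2 : ((a + (t : ℤ) * D).toNat : ℤ) = ((a + (s : ℤ) * D).toNat : ℤ) := by exact_mod_cast hts
        rwa [Int.toNat_of_nonneg ht.2.le, Int.toNat_of_nonneg hs.2.le] at h2
      have h3 : (t : ℤ) = s := mul_right_cancel₀ (show (D : ℤ) ≠ 0 by omega) (by linarith)
      exact_mod_cast h3
    · intro n hn
      rw [mem_filter, mem_Ioc] at hn
      obtain ⟨⟨h1, h2⟩, h3⟩ := hn
      have h4 : (n : ℤ) ≡ a [ZMOD D] := by
        have h5 := Int.natCast_modEq_iff.2 h3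
        rw [hrz] at h5
        exact h5.trans (Int.mod_modEq a D)
      obtain ⟨q, hq⟩ := (Int.modEq_iff_dvd.1 h4.symm)
      have hn0 : (0 : ℤ) < n := by omega
      have hna : a ≤ n := by
        rw [hu] at h1
        omega
      have hq0 : 0 ≤ q := by
        by_contra hcon
        push Not at hcon
        nlinarith
      have hqN : q ≤ N - 1 := by
        have h5 : (n : ℤ) ≤ e := by
          rw [hv] at h2
          omega
        by_contra hcon
        push Not at hcon
        nlinarith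
      have hqt : ((q.toNat : ℕ) : ℤ) = q := Int.toNat_of_nonneg hq0
      have hval : a + (q.toNat : ℤ) * D = n := by rw [hqt]; linarith
      refine ⟨q.toNat, ?_, ?_⟩
      · rw [mem_filter, mem_range]
        refine ⟨by omega, ?_⟩
        rw [hval]
        exact hn0
      · rw [hval, Int.toNat_natCast]
    · intro t _
      rfl
  rw [hsum]
  have hsplit : ∑ n ∈ (Ioc u v).filter (fun n => n ≡ r [MOD D]), lio n = cs lio v D r - cs lio u D r := by
    unfold cs
    have e1 : (Icc 1 v).filter (fun n => n ≡ r [MOD D]) = (Icc 1 u).filter (fun n => n ≡ r [MOD D]) ∪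
        (Ioc u v).filter (fun n => n ≡ r [MOD D]) := by
      rw [← filter_union]
      congr 1
      ext n
      simp only [mem_Icc, mem_union, mem_Ioc]
      omega
    rw [e1, sum_union]
    · ring
    · rw [disjoint_left]
      intro n hn1 hn2
      rw [mem_filter, mem_Icc] at hn1
      rw [mem_filter, mem_Ioc] at hn2
      omega
  rw [hsplit]
  refine (abs_sub _ _).trans ?_
  linarith [hb r v hvM, hb r u huM]

/-- **The Liouville function on a progression of integers** -/
lemma line_sum (M b : ℝ) (D : ℤ) (hD : D ≠ 0) (hb : ∀ r Y : ℕ, (Y : ℝ) ≤ M → |cs lio Y D.natAbs r| ≤ b) (hM0 : 0 ≤ M)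
    (a : ℤ) (N : ℕ) (hM : ∀ t : ℕ, t < N → |((a + t * D : ℤ) : ℝ)| ≤ M) :
    |∑ t ∈ range N, lz (a + (t : ℤ) * D)| ≤ 4 * b := by
  wlog hDpos : 0 < D generalizing D a with H
  · have hDneg : 0 < -D := by
      push Not at hDpos
      omega
    have h1 := H (-D) (by omega) (by rwa [Int.natAbs_neg]) (-a) (by
      intro t ht
      have h2 := hM t ht
      have e : ((-a + t * -D : ℤ) : ℝ) = -((a + t * D : ℤ) : ℝ) := by push_cast; ring
      rw [e, abs_neg]
      exact h2) hDneg
    have e : ∑ t ∈ range N, lz (-a + (t : ℤ) * -D) = ∑ t ∈ range N, lz (a + (t : ℤ) * D) := by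
      apply Finset.sum_congr rfl
      intro t _
      rw [← lz_neg]
      congr 1
      ring
    rwa [e] at h1
  obtain ⟨E, hE⟩ : ∃ E : ℕ, E = D.natAbs := ⟨_, rfl⟩
  have hEz : (E : ℤ) = D := by rw [hE]; omega
  have hE1 : 1 ≤ E := by omega
  rw [← hE] at hb
  rw [← hEz] at hM ⊢
  have hdec : ∀ z : ℤ, lz z = (if 0 < z then lio z.toNat else 0) + (if 0 < -z then lio (-z).toNat else 0) := by
    intro z
    rcases lt_trichotomy z 0 with h | h | h
    · rw [if_neg (by omega), if_pos (by omega), zero_add]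
      unfold lz
      congr 1
      omega
    · rw [h, lz_zero]
      simp
    · rw [if_pos h, if_neg (by omega), add_zero]
      unfold lz
      congr 1
      omega
  rw [Finset.sum_congr rfl (fun (t : ℕ) _ => hdec (a + (t : ℤ) * E)), Finset.sum_add_distrib]
  have h1 := pos_part E hE1 M b hb hM0 a N (fun t ht => (le_abs_self _).trans (hM t ht))
  have h2 := pos_part E hE1 M b hb hM0 (-(a + ((N : ℤ) - 1) * E)) N (by
    intro t ht
    have h3 := hM (N - 1 - t) (by omega)
    have e : ((-(a + ((N : ℤ) - 1) * E) + t * E : ℤ) : ℝ) = -((a + ((N - 1 - t : ℕ) : ℤ) * E : ℤ) : ℝ) := by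
      have : ((N - 1 - t : ℕ) : ℤ) = (N : ℤ) - 1 - t := by omega
      rw [this]
      push_cast
      ring
    rw [e]
    exact (neg_le_abs _).trans h3)
  have e : ∑ t ∈ range N, (if 0 < -(a + (t : ℤ) * E) then lio (-(a + (t : ℤ) * E)).toNat else 0) =
      ∑ t ∈ range N, (if 0 < -(a + ((N : ℤ) - 1) * E) + (t : ℤ) * E then
        lio (-(a + ((N : ℤ) - 1) * E) + (t : ℤ) * E).toNat else 0) := by
    rw [← Finset.sum_range_reflect]
    apply Finset.sum_congr rfl
    intro t ht
    rw [mem_range] at ht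
    have : -(a + ((N - 1 - t : ℕ) : ℤ) * E) = -(a + ((N : ℤ) - 1) * E) + (t : ℤ) * E := by
      have : ((N - 1 - t : ℕ) : ℤ) = (N : ℤ) - 1 - t := by omega
      rw [this]
      ring
    rw [this]
  rw [e]
  refine (abs_add_le _ _).trans ?_
  linarith

end Pool.Agent.Q236.LP
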