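import Pool.Agent.Q236.LP.Corr
import Pool.Agent.Q236.LP.Clt

set_option autoImplicit false

/-!
# The patterns of signs at the values of random polynomials plus arbitrary functions
-/

namespace Pool.Agent.Q236.LP

open Finset Filter
open Pool.Agent.Q236.RP (ev_log_ge ev_pow_log Box mem_Box card_Box ev)

variable {n d : ℕ}

open Classical in
/-- the sign as a Boolean (`true` for `λ = -1`) -/
noncomputable def sg (z : ℤ) : Bool := decide (lz z = -1)

/-- `λ`, with the value `1` at `0` -/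
noncomputable def lt (z : ℤ) : ℝ := if sg z then -1 else 1

lemma lz_cases (z : ℤ) (hz : z ≠ 0) : lz z = 1 ∨ lz z = -1 := by
  unfold lz
  rw [Pool.Agent.Y868.TE.lio_ne (by omega)]
  exact neg_one_pow_eq_or ℝ _

lemma lt_eq (z : ℤ) (hz : z ≠ 0) : lt z = lz z := by
  unfold lt sg
  rcases lz_cases z hz with h | h
  · rw [h]
    norm_num
  · rw [h]
    simp

lemma lt_abs (z : ℤ) : |lt z| = 1 := by
  unfold lt
  split_ifs <;> simp

open Classical in
/-- the correlations of `lt` -/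
lemma corr_lt (d A C : ℕ) : ∀ᶠ X : ℕ in atTop, ∀ (f : ℕ → ℤ) (Z : Fin d → ℤ) (Y : Fin d → ℕ) (J : Finset ℕ),
    J.Nonempty → J.card ≤ d → LZ C X f Z Y J →
    |∑ c ∈ Box Z Y, ∏ k ∈ J, lt (ev f c k)| ≤ (Box Z Y).card / Real.log X ^ A := by
  filter_upwards [corr_lz d (A + 1) C, ev_log_ge 2, ev_log_ge d, ev_pow_log (C + A + 2)] with X h hL2 hLd hP f Z Y J hJ hJd hsz
  obtain ⟨L, hL⟩ : ∃ L, L = Real.log (X : ℝ) := ⟨_, rfl⟩
  have h1 := h f Z Y J hJ hJd hsz
  have side := hsz.side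
  rw [← hL] at h1 hL2 hLd hP side ⊢
  have hL1 : 1 ≤ L := by linarith
  have hL0 : 0 < L := by linarith
  have hLp : ∀ j : ℕ, 0 < L ^ j := fun j => by positivity
  have hX0 : (0 : ℝ) < X := lt_of_lt_of_le (hLp _) hP
  have hd : 0 < d := lt_of_lt_of_le (card_pos.2 hJ) hJd
  have hYpos : ∀ i, 1 ≤ Y i := by
    intro i
    have h1 := side i
    have h2 : (0 : ℝ) < X / L ^ C := by positivity
    have : (0 : ℝ) < Y i := lt_of_lt_of_le h2 h1
    exact_mod_cast this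
  obtain ⟨b, hb⟩ : ∃ b : ℝ, b = (Box Z Y).card := ⟨_, rfl⟩
  have hb0 : 0 ≤ b := by rw [hb]; exact Nat.cast_nonneg _
  have h2 : |∑ c ∈ Box Z Y, ∏ k ∈ J, lt (ev f c k) - ∑ c ∈ Box Z Y, ∏ k ∈ J, lz (ev f c k)| ≤ b * (d * L ^ C / X) := by
    rw [← Finset.sum_sub_distrib]
    refine (Finset.abs_sum_le_sum_abs _ _).trans ?_
    calc ∑ c ∈ Box Z Y, |∏ k ∈ J, lt (ev f c k) - ∏ k ∈ J, lz (ev f c k)| ≤
        ∑ c ∈ Box Z Y, ∑ k ∈ J, (if ev f c k = 0 then (1 : ℝ) else 0) := by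
          apply Finset.sum_le_sum
          intro c _
          by_cases hz : ∃ k ∈ J, ev f c k = 0
          · obtain ⟨k, hk, hk0⟩ := hz
            have h3 : ∏ k ∈ J, lz (ev f c k) = 0 := Finset.prod_eq_zero hk (by rw [hk0, lz_zero])
            rw [h3, sub_zero, Finset.abs_prod]
            have h4 : ∏ k ∈ J, |lt (ev f c k)| = 1 := by
              rw [Finset.prod_congr rfl (fun k _ => lt_abs _), Finset.prod_const_one]
            rw [h4]
            have h5 := Finset.single_le_sum (f := fun k => if ev f c k = 0 then (1 : ℝ) else 0)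
              (fun k _ => by split_ifs <;> norm_num) hk
            rwa [if_pos hk0] at h5
          · push Not at hz
            have h3 : ∏ k ∈ J, lt (ev f c k) = ∏ k ∈ J, lz (ev f c k) :=
              Finset.prod_congr rfl (fun k hk => lt_eq _ (hz k hk))
            rw [h3, sub_self, abs_zero]
            exact Finset.sum_nonneg fun k _ => by split_ifs <;> norm_num
      _ = ∑ k ∈ J, (((Box Z Y).filter (fun c => ev f c k = 0)).card : ℝ) := by
          rw [Finset.sum_comm]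
          apply Finset.sum_congr rfl
          intro k _
          rw [Finset.sum_boole]
      _ ≤ ∑ _k ∈ J, b * (L ^ C / X) := by
          apply Finset.sum_le_sum
          intro k _
          refine (zero_card f Z Y hYpos hd k).trans ?_
          rw [← hb, div_eq_mul_inv]
          apply mul_le_mul_of_nonneg_left _ hb0
          rw [← inv_div]
          exact inv_anti₀ (by positivity) (side _)
      _ = J.card * (b * (L ^ C / X)) := by rw [Finset.sum_const, nsmul_eq_mul]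
      _ ≤ d * (b * (L ^ C / X)) := by
          apply mul_le_mul_of_nonneg_right _ (by positivity)
          exact_mod_cast hJd
      _ = b * (d * L ^ C / X) := by ring
  have h3 : (d : ℝ) * L ^ C / X ≤ 1 / 2 / L ^ A := by
    rw [div_le_div_iff₀ hX0 (hLp _)]
    calc (d : ℝ) * L ^ C * L ^ A ≤ L * L ^ C * L ^ A := by gcongr
      _ = 1 / 2 * (2 * (L * L ^ C * L ^ A)) := by ring
      _ ≤ 1 / 2 * (L * (L * L ^ C * L ^ A)) := by gcongr
      _ = 1 / 2 * L ^ (C + A + 2) := by ring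
      _ ≤ 1 / 2 * X := by gcongr
  have h4 : b / L ^ (A + 1) ≤ b * (1 / 2 / L ^ A) := by
    rw [pow_succ, div_le_iff₀ (by positivity)]
    have e : b * (1 / 2 / L ^ A) * (L ^ A * L) = b * (L / 2) := by field_simp
    rw [e]
    nlinarith
  rw [← hb] at h1 ⊢
  have e : ∑ c ∈ Box Z Y, ∏ k ∈ J, lt (ev f c k) = (∑ c ∈ Box Z Y, ∏ k ∈ J, lt (ev f c k) -
    ∑ c ∈ Box Z Y, ∏ k ∈ J, lz (ev f c k)) + ∑ c ∈ Box Z Y, ∏ k ∈ J, lz (ev f c k) := by ring
  rw [e]
  refine (abs_add_le _ _).trans ?_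
  have h5 : b * (d * L ^ C / X) ≤ b * (1 / 2 / L ^ A) := mul_le_mul_of_nonneg_left h3 hb0
  have e2 : b / L ^ A = b * (1 / 2 / L ^ A) + b * (1 / 2 / L ^ A) := by ring
  rw [e2]
  linarith

open Classical in
/-- the patterns, one polynomial -/
lemma pat_one (d A C : ℕ) : ∀ᶠ X : ℕ in atTop, ∀ (f : ℕ → ℤ) (Z : Fin d → ℤ) (Y : Fin d → ℕ) (J : Finset ℕ),
    J.card ≤ d → LZ C X f Z Y J → ∀ e : ℕ → Bool,
    |(((Box Z Y).filter (fun c => ∀ k ∈ J, sg (ev f c k) = e k)).card : ℝ) - (Box Z Y).card / 2 ^ J.card| ≤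
      (Box Z Y).card / Real.log X ^ A := by
  filter_upwards [corr_lt d A C, ev_log_ge 1] with X h hL1 f Z Y J hJd hsz e
  obtain ⟨L, hL⟩ : ∃ L, L = Real.log (X : ℝ) := ⟨_, rfl⟩
  rw [← hL] at h hL1 ⊢
  obtain ⟨b, hb⟩ : ∃ b : ℝ, b = (Box Z Y).card := ⟨_, rfl⟩
  have hb0 : 0 ≤ b := by rw [hb]; exact Nat.cast_nonneg _
  obtain ⟨ep, hep⟩ : ∃ ep : ℕ → ℝ, ep = fun k => if e k then -1 else 1 := ⟨_, rfl⟩
  have hep1 : ∀ k, |ep k| = 1 := by
    intro k
    rw [hep]
    simp only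
    split_ifs <;> simp
  have hone : ∀ c : Fin d → ℤ, ∀ k, (1 + ep k * lt (ev f c k)) / 2 = if sg (ev f c k) = e k then 1 else 0 := by
    intro c k
    rw [hep]
    unfold lt
    simp only
    cases e k <;> cases sg (ev f c k) <;> norm_num
  have h1 : (((Box Z Y).filter (fun c => ∀ k ∈ J, sg (ev f c k) = e k)).card : ℝ) =
      ∑ c ∈ Box Z Y, ∏ k ∈ J, ((1 + ep k * lt (ev f c k)) / 2) := by
    rw [Finset.card_filter]
    push_cast
    apply Finset.sum_congr rfl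
    intro c _
    rw [Finset.prod_congr rfl (fun k _ => hone c k)]
    split_ifs with hc
    · rw [Finset.prod_congr rfl (fun k hk => if_pos (hc k hk)), Finset.prod_const_one]
    · push Not at hc
      obtain ⟨k, hk, hk2⟩ := hc
      exact (Finset.prod_eq_zero hk (if_neg hk2)).symm
  have h2 : ∀ c : Fin d → ℤ, ∏ k ∈ J, ((1 + ep k * lt (ev f c k)) / 2) =
      1 / 2 ^ J.card * ∑ E ∈ J.powerset, (∏ k ∈ E, ep k) * ∏ k ∈ E, lt (ev f c k) := by
    intro c
    rw [Finset.prod_div_distrib, Finset.prod_const]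
    have h3 : ∏ k ∈ J, (1 + ep k * lt (ev f c k)) = ∏ k ∈ J, (ep k * lt (ev f c k) + 1) := by
      apply Finset.prod_congr rfl
      intro k _
      ring
    rw [h3, Finset.prod_add_one, div_eq_mul_one_div, mul_comm]
    congr 1
    apply Finset.sum_congr rfl
    intro E _
    rw [Finset.prod_mul_distrib]
  rw [h1, Finset.sum_congr rfl (fun c _ => h2 c), ← Finset.mul_sum, Finset.sum_comm, ← hb]
  have h3 : ∀ E ∈ J.powerset, ∑ c ∈ Box Z Y, (∏ k ∈ E, ep k) * ∏ k ∈ E, lt (ev f c k) =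
      (∏ k ∈ E, ep k) * ∑ c ∈ Box Z Y, ∏ k ∈ E, lt (ev f c k) := by
    intro E _
    rw [Finset.mul_sum]
  rw [Finset.sum_congr rfl h3, ← Finset.add_sum_erase _ _ (empty_mem_powerset J)]
  have h4 : (∏ k ∈ (∅ : Finset ℕ), ep k) * ∑ c ∈ Box Z Y, ∏ k ∈ (∅ : Finset ℕ), lt (ev f c k) = b := by
    simp [hb]
  rw [h4]
  have e1 : 1 / 2 ^ J.card * (b + ∑ E ∈ J.powerset.erase ∅, (∏ k ∈ E, ep k) * ∑ c ∈ Box Z Y, ∏ k ∈ E, lt (ev f c k)) -
      b / 2 ^ J.card = 1 / 2 ^ J.card * ∑ E ∈ J.powerset.erase ∅, (∏ k ∈ E, ep k) * ∑ c ∈ Box Z Y, ∏ k ∈ E, lt (ev f c k) := by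
    ring
  rw [e1, abs_mul, abs_of_nonneg (by positivity : (0 : ℝ) ≤ 1 / 2 ^ J.card)]
  have h5 : |∑ E ∈ J.powerset.erase ∅, (∏ k ∈ E, ep k) * ∑ c ∈ Box Z Y, ∏ k ∈ E, lt (ev f c k)| ≤ 2 ^ J.card * (b / L ^ A) := by
    refine (Finset.abs_sum_le_sum_abs _ _).trans ?_
    calc ∑ E ∈ J.powerset.erase ∅, |(∏ k ∈ E, ep k) * ∑ c ∈ Box Z Y, ∏ k ∈ E, lt (ev f c k)| ≤
        ∑ _E ∈ J.powerset.erase ∅, b / L ^ A := by
          apply Finset.sum_le_sum
          intro E hE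
          rw [mem_erase, mem_powerset] at hE
          rw [abs_mul, Finset.abs_prod, Finset.prod_congr rfl (fun k _ => hep1 k), Finset.prod_const_one, one_mul]
          have h6 := h f Z Y E (nonempty_iff_ne_empty.2 hE.1) ((card_le_card hE.2).trans hJd) (hsz.mono hE.2)
          rw [← hb] at h6
          exact h6
      _ = (J.powerset.erase ∅).card * (b / L ^ A) := by rw [Finset.sum_const, nsmul_eq_mul]
      _ ≤ 2 ^ J.card * (b / L ^ A) := by
          apply mul_le_mul_of_nonneg_right _ (by positivity)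
          have := card_le_card (erase_subset ∅ J.powerset)
          rw [card_powerset] at this
          exact_mod_cast this
  calc 1 / 2 ^ J.card * |∑ E ∈ J.powerset.erase ∅, (∏ k ∈ E, ep k) * ∑ c ∈ Box Z Y, ∏ k ∈ E, lt (ev f c k)| ≤
      1 / 2 ^ J.card * (2 ^ J.card * (b / L ^ A)) := mul_le_mul_of_nonneg_left h5 (by positivity)
    _ = b / L ^ A := by field_simp

/-- the arrays of coefficients -/
noncomputable def BoxL (Z : Fin n → Fin d → ℤ) (Y : Fin n → Fin d → ℕ) : Finset (Fin n → Fin d → ℤ) :=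
  Fintype.piFinset fun i => Box (Z i) (Y i)

/-- the signs of the values at `k` -/
noncomputable def sgs (f : Fin n → ℕ → ℤ) (c : Fin n → Fin d → ℤ) (k : ℕ) : Fin n → Bool := fun i => sg (ev (f i) (c i) k)

lemma prod_sub_le (s : Finset (Fin n)) (a b : Fin n → ℝ) (ha : ∀ i, 0 ≤ a i ∧ a i ≤ 1) (hb : ∀ i, 0 ≤ b i ∧ b i ≤ 1) :
    |∏ i ∈ s, a i - ∏ i ∈ s, b i| ≤ ∑ i ∈ s, |a i - b i| := by
  induction s using Finset.induction_on with
  | empty => simp
  | insert i s hi ih =>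
    rw [prod_insert hi, prod_insert hi, sum_insert hi]
    have e : a i * ∏ j ∈ s, a j - b i * ∏ j ∈ s, b j = a i * (∏ j ∈ s, a j - ∏ j ∈ s, b j) + (a i - b i) * ∏ j ∈ s, b j := by ring
    rw [e]
    refine (abs_add_le _ _).trans ?_
    rw [abs_mul, abs_mul, abs_of_nonneg (ha i).1]
    have h1 : |∏ j ∈ s, b j| ≤ 1 := by
      rw [Finset.abs_prod]
      apply Finset.prod_le_one (fun j _ => abs_nonneg _)
      intro j _
      rw [abs_of_nonneg (hb j).1]
      exact (hb j).2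
    have h2 : a i * |∏ j ∈ s, a j - ∏ j ∈ s, b j| ≤ 1 * |∏ j ∈ s, a j - ∏ j ∈ s, b j| :=
      mul_le_mul_of_nonneg_right (ha i).2 (abs_nonneg _)
    have h3 : |a i - b i| * |∏ j ∈ s, b j| ≤ |a i - b i| * 1 := mul_le_mul_of_nonneg_left h1 (abs_nonneg _)
    linarith

open Classical in
/-- **The patterns of signs** -/
theorem ind_sgs (n d A C : ℕ) : ∀ᶠ X : ℕ in atTop, ∀ (f : Fin n → ℕ → ℤ) (Z : Fin n → Fin d → ℤ) (Y : Fin n → Fin d → ℕ)
    (S : Finset ℕ), (∀ i, LZ C X (f i) (Z i) (Y i) S) →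
    Ind (BoxL Z Y) (sgs f) S d (1 / Real.log X ^ A) := by
  filter_upwards [pat_one d (A + 1) C, ev_log_ge 1, ev_log_ge n, ev_pow_log (C + 1)] with X h hL1 hLn hP f Z Y S hsz J hJS hJd e
  obtain ⟨L, hL⟩ : ∃ L, L = Real.log (X : ℝ) := ⟨_, rfl⟩
  have side : ∀ i j, (X : ℝ) / L ^ C ≤ Y i j := by
    intro i j
    rw [hL]
    exact (hsz i).side j
  rw [← hL] at h hL1 hLn hP ⊢
  have hL0 : 0 < L := by linarith
  have hLp : ∀ j : ℕ, 0 < L ^ j := fun j => by positivity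
  have hX0 : (0 : ℝ) < X := lt_of_lt_of_le (hLp _) hP
  have hYpos : ∀ i j, 1 ≤ Y i j := by
    intro i j
    have h2 : (0 : ℝ) < X / L ^ C := by positivity
    have : (0 : ℝ) < Y i j := lt_of_lt_of_le h2 (side i j)
    exact_mod_cast this
  have hB : ∀ i, (0 : ℝ) < (Box (Z i) (Y i)).card := by
    intro i
    rw [card_Box]
    exact_mod_cast Finset.prod_pos fun j _ => hYpos i j
  have e1 : (BoxL Z Y).filter (fun c => ∀ k ∈ J, sgs f c k = e k) =
      Fintype.piFinset (fun i => (Box (Z i) (Y i)).filter (fun b => ∀ k ∈ J, sg (ev (f i) b k) = e k i)) := by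
    ext c
    unfold BoxL
    rw [mem_filter, Fintype.mem_piFinset, Fintype.mem_piFinset]
    constructor
    · rintro ⟨h1, h2⟩ i
      rw [mem_filter]
      refine ⟨h1 i, ?_⟩
      intro k hk
      have := congrFun (h2 k hk) i
      exact this
    · intro h1
      refine ⟨fun i => (mem_filter.1 (h1 i)).1, ?_⟩
      intro k hk
      ext i
      have := (mem_filter.1 (h1 i)).2 k hk
      exact this
  have hcv : ((((BoxL Z Y).filter (fun c => ∀ k ∈ J, sgs f c k = e k)).card : ℕ) : ℝ) =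
      ∏ i, ((((Box (Z i) (Y i)).filter (fun b => ∀ k ∈ J, sg (ev (f i) b k) = e k i)).card : ℕ) : ℝ) := by
    rw [e1, Fintype.card_piFinset]
    push_cast
    rfl
  have hcard : ((BoxL Z Y).card : ℝ) = ∏ i, ((Box (Z i) (Y i)).card : ℝ) := by
    unfold BoxL
    rw [Fintype.card_piFinset]
    push_cast
    rfl
  have hP0 : 0 < ∏ i, ((Box (Z i) (Y i)).card : ℝ) := Finset.prod_pos fun i _ => hB i
  have hA : (Fintype.card (Fin n → Bool) : ℝ) ^ J.card = ∏ _i : Fin n, (2 : ℝ) ^ J.card := by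
    rw [Fintype.card_fun, Fintype.card_bool, Fintype.card_fin, Finset.prod_const, card_univ, Fintype.card_fin]
    push_cast
    rw [← pow_mul, ← pow_mul, mul_comm]
  rw [hcard, hA]
  obtain ⟨a, ha⟩ : ∃ a : Fin n → ℝ, a = fun i =>
    ((((Box (Z i) (Y i)).filter (fun b => ∀ k ∈ J, sg (ev (f i) b k) = e k i)).card : ℕ) : ℝ) / (Box (Z i) (Y i)).card := ⟨_, rfl⟩
  have hai : ∀ i, 0 ≤ a i ∧ a i ≤ 1 := by
    intro i
    rw [ha]
    constructor
    · positivity
    · simp only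
      rw [div_le_one (hB i)]
      exact_mod_cast card_filter_le _ _
  have hbi : ∀ _i : Fin n, (0 : ℝ) ≤ 1 / 2 ^ J.card ∧ (1 : ℝ) / 2 ^ J.card ≤ 1 := by
    intro i
    refine ⟨by positivity, ?_⟩
    rw [div_le_one (by positivity)]
    exact one_le_pow₀ (by norm_num)
  have h1 := prod_sub_le univ a (fun _ => 1 / 2 ^ J.card) hai hbi
  have h2 : ∀ i, |a i - 1 / 2 ^ J.card| ≤ 1 / L ^ (A + 1) := by
    intro i
    have h3 := h (f i) (Z i) (Y i) J hJd ((hsz i).mono hJS) (fun k => e k i)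
    have h4 : a i - 1 / 2 ^ J.card = (((((Box (Z i) (Y i)).filter (fun b => ∀ k ∈ J, sg (ev (f i) b k) = e k i)).card : ℕ) : ℝ) -
        (Box (Z i) (Y i)).card / 2 ^ J.card) / (Box (Z i) (Y i)).card := by
      rw [ha]
      have := (hB i).ne'
      field_simp
    rw [h4, abs_div, abs_of_pos (hB i), div_le_iff₀ (hB i)]
    refine h3.trans (le_of_eq ?_)
    ring
  have h3 : |∏ i, a i - ∏ _i : Fin n, (1 : ℝ) / 2 ^ J.card| ≤ 1 / L ^ A := by
    refine h1.trans ?_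
    calc ∑ i, |a i - 1 / 2 ^ J.card| ≤ ∑ _i : Fin n, 1 / L ^ (A + 1) := Finset.sum_le_sum fun i _ => h2 i
      _ = n * (1 / L ^ (A + 1)) := by rw [Finset.sum_const, card_univ, Fintype.card_fin, nsmul_eq_mul]
      _ ≤ L * (1 / L ^ (A + 1)) := mul_le_mul_of_nonneg_right hLn (by positivity)
      _ = 1 / L ^ A := by
          rw [pow_succ]
          field_simp
  have h4 : ∏ i, a i = ((((BoxL Z Y).filter (fun c => ∀ k ∈ J, sgs f c k = e k)).card : ℕ) : ℝ) / ∏ i, ((Box (Z i) (Y i)).card : ℝ) := by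
    rw [ha, hcv, Finset.prod_div_distrib]
  have h5 : ∏ _i : Fin n, (1 : ℝ) / 2 ^ J.card = 1 / ∏ _i : Fin n, (2 : ℝ) ^ J.card := by
    rw [Finset.prod_div_distrib, Finset.prod_const_one]
  rw [h4, h5] at h3
  obtain ⟨B, hBd⟩ : ∃ B : ℝ, B = ∏ i, ((Box (Z i) (Y i)).card : ℝ) := ⟨_, rfl⟩
  obtain ⟨N, hN⟩ : ∃ N : ℝ, N = ((((BoxL Z Y).filter (fun c => ∀ k ∈ J, sgs f c k = e k)).card : ℕ) : ℝ) := ⟨_, rfl⟩
  obtain ⟨q, hq⟩ : ∃ q : ℝ, q = ∏ _i : Fin n, (2 : ℝ) ^ J.card := ⟨_, rfl⟩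
  rw [← hBd] at h3 hP0 ⊢
  rw [← hN, ← hq] at h3
  have hgoal : |N - B / q| ≤ 1 / L ^ A * B := by
    have e2 : N - B / q = (N / B - 1 / q) * B := by
      have := hP0.ne'
      field_simp
    rw [e2, abs_mul, abs_of_pos hP0]
    exact mul_le_mul_of_nonneg_right h3 hP0.le
  rw [hN, hq] at hgoal
  convert! hgoal using 3

end Pool.Agent.Q236.LP
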