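import Pool.Agent.Q236.LP.Final

set_option autoImplicit false

/-!
# The exceptional arrays with a zero value; from Boolean signs to the values of the Liouville function
-/

namespace Pool.Agent.Q236.LP

open Finset Filter
open Pool.Agent.Q236.RP (ev_log_ge ev_pow_log Box mem_Box card_Box ev)

variable {n d : ℕ}

open Classical in
/-- arrays with a zero value -/
noncomputable def Bd (f : Fin n → ℕ → ℤ) (Z : Fin n → Fin d → ℤ) (Y : Fin n → Fin d → ℕ) (S : Finset ℕ) :
    Finset (Fin n → Fin d → ℤ) := (BoxL Z Y).filter (fun c => ∃ i, ∃ k ∈ S, ev (f i) (c i) k = 0)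

open Classical in
lemma one_zero (f : Fin n → ℕ → ℤ) (Z : Fin n → Fin d → ℤ) (Y : Fin n → Fin d → ℕ) (hY : ∀ i j, 1 ≤ Y i j) (hd : 0 < d)
    (i : Fin n) (k : ℕ) : (((BoxL Z Y).filter (fun c => ev (f i) (c i) k = 0)).card : ℝ) ≤ (BoxL Z Y).card / Y i ⟨0, hd⟩ := by
  have e1 : (BoxL Z Y).filter (fun c => ev (f i) (c i) k = 0) =
      Fintype.piFinset (fun l => if l = i then (Box (Z l) (Y l)).filter (fun b => ev (f l) b k = 0) else Box (Z l) (Y l)) := by
    ext c
    unfold BoxL
    rw [mem_filter, Fintype.mem_piFinset, Fintype.mem_piFinset]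
    constructor
    · rintro ⟨h1, h2⟩ l
      split_ifs with hl
      · rw [mem_filter]
        refine ⟨h1 l, ?_⟩
        rw [hl]
        exact h2
      · exact h1 l
    · intro h1
      refine ⟨fun l => ?_, ?_⟩
      · have := h1 l
        split_ifs at this with hl
        · exact (mem_filter.1 this).1
        · exact this
      · have := h1 i
        rw [if_pos rfl, mem_filter] at this
        exact this.2
  rw [e1, Fintype.card_piFinset, ← Finset.mul_prod_erase univ _ (mem_univ i), if_pos rfl]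
  have h1 : ∏ l ∈ univ.erase i, (if l = i then (Box (Z l) (Y l)).filter (fun b => ev (f l) b k = 0) else Box (Z l) (Y l)).card =
      ∏ l ∈ univ.erase i, (Box (Z l) (Y l)).card := by
    apply Finset.prod_congr rfl
    intro l hl
    rw [if_neg (ne_of_mem_erase hl)]
  have h2 : (BoxL Z Y).card = (Box (Z i) (Y i)).card * ∏ l ∈ univ.erase i, (Box (Z l) (Y l)).card := by
    unfold BoxL
    rw [Fintype.card_piFinset, ← Finset.mul_prod_erase univ _ (mem_univ i)]
  rw [h1, h2]
  push_cast
  have h3 := zero_card (f i) (Z i) (Y i) (hY i) hd k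
  calc _ ≤ ((Box (Z i) (Y i)).card : ℝ) / Y i ⟨0, hd⟩ * ∏ l ∈ univ.erase i, ((Box (Z l) (Y l)).card : ℝ) := by
        apply mul_le_mul_of_nonneg_right _ (Finset.prod_nonneg fun l _ => Nat.cast_nonneg _)
        exact h3
    _ = _ := by ring

/-- few arrays have a zero value -/
lemma bd_card (n d A C : ℕ) (hd : 0 < d) : ∀ᶠ X : ℕ in atTop, ∀ (f : Fin n → ℕ → ℤ) (Z : Fin n → Fin d → ℤ)
    (Y : Fin n → Fin d → ℕ) (S : Finset ℕ), (∀ i j, (X : ℝ) / Real.log X ^ C ≤ Y i j) →
    (∀ k ∈ S, (k : ℝ) ≤ Real.log X ^ C) → ((Bd f Z Y S).card : ℝ) ≤ (BoxL Z Y).card / Real.log X ^ A := by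
  classical
  filter_upwards [ev_log_ge 1, ev_log_ge (2 * n), ev_pow_log (2 * C + A + 1)] with X hL1 hLn hP f Z Y S side hS
  obtain ⟨L, hL⟩ : ∃ L, L = Real.log (X : ℝ) := ⟨_, rfl⟩
  have hcardS := card_S_le C X S hL1 hS
  rw [← hL] at hL1 hLn hP side hcardS ⊢
  have hL0 : 0 < L := by linarith
  have hLp : ∀ j : ℕ, 0 < L ^ j := fun j => by positivity
  have hX0 : (0 : ℝ) < X := lt_of_lt_of_le (hLp _) hP
  have hYpos : ∀ i j, 1 ≤ Y i j := by
    intro i j
    have h2 : (0 : ℝ) < X / L ^ C := by positivity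
    have : (0 : ℝ) < Y i j := lt_of_lt_of_le h2 (side i j)
    exact_mod_cast this
  obtain ⟨b, hb⟩ : ∃ b : ℝ, b = (BoxL Z Y).card := ⟨_, rfl⟩
  have hb0 : 0 ≤ b := by rw [hb]; exact Nat.cast_nonneg _
  have hsub : Bd f Z Y S ⊆ (univ : Finset (Fin n)).biUnion (fun i => S.biUnion (fun k =>
      (BoxL Z Y).filter (fun c => ev (f i) (c i) k = 0))) := by
    intro c hc
    unfold Bd at hc
    rw [mem_filter] at hc
    obtain ⟨hc1, i, k, hk, hz⟩ := hc
    rw [mem_biUnion]
    refine ⟨i, mem_univ i, ?_⟩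
    rw [mem_biUnion]
    exact ⟨k, hk, mem_filter.2 ⟨hc1, hz⟩⟩
  have h1 := (card_le_card hsub).trans card_biUnion_le
  have h2 : ((∑ i : Fin n, (S.biUnion (fun k => (BoxL Z Y).filter (fun c => ev (f i) (c i) k = 0))).card : ℕ) : ℝ) ≤
      n * (S.card * (b * (L ^ C / X))) := by
    push_cast
    calc ∑ i : Fin n, (((S.biUnion (fun k => (BoxL Z Y).filter (fun c => ev (f i) (c i) k = 0))).card : ℕ) : ℝ) ≤
        ∑ _i : Fin n, (S.card : ℝ) * (b * (L ^ C / X)) := by
          apply Finset.sum_le_sum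
          intro i _
          have h3 : ((S.biUnion (fun k => (BoxL Z Y).filter (fun c => ev (f i) (c i) k = 0))).card : ℝ) ≤
              ∑ k ∈ S, (((BoxL Z Y).filter (fun c => ev (f i) (c i) k = 0)).card : ℝ) := by
            exact_mod_cast card_biUnion_le
          refine h3.trans ?_
          calc ∑ k ∈ S, (((BoxL Z Y).filter (fun c => ev (f i) (c i) k = 0)).card : ℝ) ≤ ∑ _k ∈ S, b * (L ^ C / X) := by
                apply Finset.sum_le_sum
                intro k _
                refine (one_zero f Z Y hYpos hd i k).trans ?_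
                rw [← hb, div_eq_mul_inv]
                apply mul_le_mul_of_nonneg_left _ hb0
                rw [← inv_div]
                exact inv_anti₀ (by positivity) (side _ _)
            _ = _ := by rw [Finset.sum_const, nsmul_eq_mul]
      _ = _ := by rw [Finset.sum_const, card_univ, Fintype.card_fin, nsmul_eq_mul]
  have h3 : (n : ℝ) * (S.card * (b * (L ^ C / X))) ≤ b / L ^ A := by
    calc (n : ℝ) * (S.card * (b * (L ^ C / X))) ≤ n * ((2 * L ^ C) * (b * (L ^ C / X))) := by gcongr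
      _ = b * ((2 * n) * L ^ (2 * C) / X) := by ring
      _ ≤ b * (L * L ^ (2 * C) / X) := by gcongr
      _ ≤ b * (1 / L ^ A) := by
          apply mul_le_mul_of_nonneg_left _ hb0
          rw [div_le_div_iff₀ hX0 (hLp A), one_mul]
          refine le_trans (le_of_eq ?_) hP
          ring
      _ = b / L ^ A := by ring
  rw [← hb]
  exact le_trans (by exact_mod_cast h1) (h2.trans h3)

/-- the vector of signs of a Boolean vector -/
def tr (b : Fin n → Bool) : Fin n → ℤ := fun i => if b i then -1 else 1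

/-- the vectors of signs -/
def Sg (n : ℕ) : Finset (Fin n → ℤ) := Fintype.piFinset fun _ => {1, -1}

lemma tr_inj : Function.Injective (tr (n := n)) := by
  intro a b h
  ext i
  have := congrFun h i
  unfold tr at this
  cases ha : a i <;> cases hb : b i <;> rw [ha, hb] at this <;> simp at this ⊢

lemma tr_mem (b : Fin n → Bool) : tr b ∈ Sg n := by
  unfold Sg tr
  rw [Fintype.mem_piFinset]
  intro i
  rw [mem_insert, mem_singleton]
  split_ifs
  · right; rfl
  · left; rfl

lemma tr_surj (e : Fin n → ℤ) (he : e ∈ Sg n) : ∃ b, tr b = e := by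
  unfold Sg at he
  rw [Fintype.mem_piFinset] at he
  refine ⟨fun i => decide (e i = -1), ?_⟩
  ext i
  have := he i
  rw [mem_insert, mem_singleton] at this
  unfold tr
  rcases this with h | h
  · have h2 : ¬e i = -1 := by rw [h]; norm_num
    simp [h]
  · simp [h]

lemma sum_tr {M : Type*} [AddCommMonoid M] (g : (Fin n → ℤ) → M) : ∑ b : Fin n → Bool, g (tr b) = ∑ e ∈ Sg n, g e := by
  apply Finset.sum_bij (fun b _ => tr b)
  · intro b _
    exact tr_mem b
  · intro a _ b _ h
    exact tr_inj h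
  · intro e he
    obtain ⟨b, hb⟩ := tr_surj e he
    exact ⟨b, mem_univ b, hb⟩
  · intro b _
    rfl

/-- Liouville's function on the integers -/
def lam (z : ℤ) : ℤ := if z = 0 then 0 else (-1) ^ ArithmeticFunction.cardFactors z.natAbs

lemma tr_sg (z : ℤ) (hz : z ≠ 0) : (if sg z then (-1 : ℤ) else 1) = lam z := by
  have h1 := lt_eq z hz
  have h2 : ((lam z : ℤ) : ℝ) = lz z := by
    unfold lam lz
    rw [if_neg hz, Pool.Agent.Y868.TE.lio_ne (by omega)]
    push_cast
    rfl
  have h3 : (((if sg z then (-1 : ℤ) else 1) : ℤ) : ℝ) = lt z := by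
    unfold lt
    split_ifs <;> norm_num
  have h4 : (((if sg z then (-1 : ℤ) else 1) : ℤ) : ℝ) = ((lam z : ℤ) : ℝ) := by rw [h3, h1, h2]
  exact_mod_cast h4

/-- outside of the exceptional arrays the signs are the values of the Liouville function -/
lemma sgs_eq (f : Fin n → ℕ → ℤ) (Z : Fin n → Fin d → ℤ) (Y : Fin n → Fin d → ℕ) (S : Finset ℕ)
    (c : Fin n → Fin d → ℤ) (hc : c ∈ BoxL Z Y) (hcb : c ∉ Bd f Z Y S) (k : ℕ) (hk : k ∈ S) :
    tr (sgs f c k) = fun i => lam (ev (f i) (c i) k) := by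
  ext i
  have hz : ev (f i) (c i) k ≠ 0 := by
    intro h0
    apply hcb
    unfold Bd
    rw [mem_filter]
    exact ⟨hc, i, k, hk, h0⟩
  exact tr_sg _ hz

open Classical in
/-- comparison of events outside of the exceptional arrays -/
lemma card_cmp (W B : Finset (Fin n → Fin d → ℤ)) (P Q : (Fin n → Fin d → ℤ) → Prop)
    (h : ∀ c ∈ W, c ∉ B → (P c ↔ Q c)) : |((W.filter P).card : ℝ) - (W.filter Q).card| ≤ B.card := by
  have key : ∀ P Q : (Fin n → Fin d → ℤ) → Prop, (∀ c ∈ W, c ∉ B → (P c ↔ Q c)) → ((W.filter P).card : ℝ) ≤ (W.filter Q).card + B.card := by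
    intro P Q h
    have h1 : W.filter P ⊆ W.filter Q ∪ B := by
      intro c hc
      rw [mem_filter] at hc
      rw [mem_union, mem_filter]
      by_cases hB : c ∈ B
      · right; exact hB
      · left; exact ⟨hc.1, (h c hc.1 hB).1 hc.2⟩
    have h2 := (card_le_card h1).trans (card_union_le _ _)
    exact_mod_cast h2
  have h1 := key P Q h
  have h2 := key Q P (fun c hc hB => (h c hc hB).symm)
  rw [abs_le]
  constructor <;> linarith

end Pool.Agent.Q236.LP
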